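import Mathlib

set_option autoImplicit false

/-!
# Points of bounded height over a number field: definitions
-/

namespace Pool.Agent.HTK

open NumberField

/-- The vectors of algebraic integers all of whose archimedean absolute values are at most `X`. -/
def Bx (K : Type) [Field K] (r : ℕ) (X : ℝ) : Set (Fin r → 𝓞 K) :=
  {u | ∀ i, ∀ v : InfinitePlace K, v (u i : K) ≤ X}

/-- The norm of the ideal generated by the coordinates. -/
noncomputable def cont {K : Type} [Field K] [NumberField K] {r : ℕ} (u : Fin r → 𝓞 K) : ℕ :=
  Ideal.absNorm (Ideal.span (Set.range u))

end Pool.Agent.HTK
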