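import Mathlib
import Pool.Agent.HTK.Defs

/-!
# Every point has an integral representative of bounded content
-/

set_option autoImplicit false

namespace Pool.Agent.HTK

open NumberField nonZeroDivisors

theorem exists_cls (K : Type) [Field K] [NumberField K] (r : ℕ) : ∃ C : ℕ, ∀ t : Fin r → K, t ≠ 0 →
    ∃ (c : K) (u : Fin r → 𝓞 K), c ≠ 0 ∧ (∀ i, c * t i = u i) ∧ u ≠ 0 ∧ cont u ≤ C := by
  classical
  choose J hJ using (ClassGroup.mk0_surjective : Function.Surjective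
    (ClassGroup.mk0 : (Ideal (𝓞 K))⁰ → ClassGroup (𝓞 K)))
  refine ⟨Finset.univ.sup fun g : ClassGroup (𝓞 K) => Ideal.absNorm (J g : Ideal (𝓞 K)), ?_⟩
  intro t ht
  obtain ⟨b, hb⟩ := IsLocalization.exist_integer_multiples_of_finite (𝓞 K)⁰ t
  choose x hx using hb
  have hb0 : (b : 𝓞 K) ≠ 0 := nonZeroDivisors.ne_zero b.2
  have hx' : ∀ i, ((x i : 𝓞 K) : K) = ((b : 𝓞 K) : K) * t i := fun i => by
    rw [← Algebra.smul_def, ← hx i]
  have hx0 : Ideal.span (Set.range x) ≠ ⊥ := by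
    intro h
    apply ht
    funext i
    have h1 : x i ∈ Ideal.span (Set.range x) := Ideal.subset_span ⟨i, rfl⟩
    rw [h, Ideal.mem_bot] at h1
    have h2 := hx' i
    have h3 : ((0 : 𝓞 K) : K) = 0 := rfl
    rw [h1, h3, eq_comm, mul_eq_zero] at h2
    rcases h2 with h2 | h2
    · exact absurd ((FaithfulSMul.algebraMap_eq_zero_iff (𝓞 K) K).1 h2) hb0
    · exact h2
  let I : (Ideal (𝓞 K))⁰ := ⟨Ideal.span (Set.range x), mem_nonZeroDivisors_of_ne_zero hx0⟩
  obtain ⟨a, c, ha, hc, hac⟩ := ClassGroup.mk0_eq_mk0_iff.1 (hJ (ClassGroup.mk0 I)).symm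
  change Ideal.span {a} * Ideal.span (Set.range x) = _ at hac
  have hmem : ∀ i, ∃ u : 𝓞 K, a * x i = c * u := by
    intro i
    have h1 : a * x i ∈ Ideal.span {c} * (J (ClassGroup.mk0 I) : Ideal (𝓞 K)) := by
      rw [← hac]
      exact Ideal.mul_mem_mul (Ideal.mem_span_singleton_self a) (Ideal.subset_span ⟨i, rfl⟩)
    obtain ⟨u, _, hu⟩ := Ideal.mem_span_singleton_mul.1 h1
    exact ⟨u, hu.symm⟩
  choose u hu using hmem
  have hcK : ((c : 𝓞 K) : K) ≠ 0 := fun h =>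
    hc ((FaithfulSMul.algebraMap_eq_zero_iff (𝓞 K) K).1 h)
  have haK : ((a : 𝓞 K) : K) ≠ 0 := fun h =>
    ha ((FaithfulSMul.algebraMap_eq_zero_iff (𝓞 K) K).1 h)
  have hbK : ((b : 𝓞 K) : K) ≠ 0 := fun h =>
    hb0 ((FaithfulSMul.algebraMap_eq_zero_iff (𝓞 K) K).1 h)
  have hspan : Ideal.span (Set.range u) = (J (ClassGroup.mk0 I) : Ideal (𝓞 K)) := by
    have h1 : Ideal.span {c} * Ideal.span (Set.range u) =
        Ideal.span {c} * (J (ClassGroup.mk0 I) : Ideal (𝓞 K)) := by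
      rw [← hac, Ideal.span_mul_span', Ideal.span_mul_span']
      congr 1
      rw [Set.singleton_mul, Set.singleton_mul, ← Set.range_comp, ← Set.range_comp]
      congr 1
      funext i
      exact (hu i).symm
    exact mul_left_cancel₀ (by rwa [Ne, Ideal.zero_eq_bot, Ideal.span_singleton_eq_bot]) h1
  refine ⟨(a : K) * (b : 𝓞 K) / c, u, div_ne_zero (mul_ne_zero haK hbK) hcK, ?_, ?_, ?_⟩
  · intro i
    have h1 : ((a : 𝓞 K) : K) * (x i : K) = (c : K) * (u i : K) :=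
      congrArg (fun z : 𝓞 K => (z : K)) (hu i)
    rw [hx' i] at h1
    rw [div_mul_eq_mul_div, div_eq_iff hcK, mul_assoc, h1, mul_comm]
  · rintro rfl
    apply hx0
    rw [Ideal.span_eq_bot]
    rintro _ ⟨i, rfl⟩
    have h1 := hu i
    rw [Pi.zero_apply, mul_zero, mul_eq_zero] at h1
    exact h1.resolve_left ha
  · unfold cont
    rw [hspan]
    exact Finset.le_sup (f := fun g : ClassGroup (𝓞 K) => Ideal.absNorm (J g : Ideal (𝓞 K)))
      (Finset.mem_univ (ClassGroup.mk0 I))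

end Pool.Agent.HTK
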