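import Mathlib

/-!
# Balancing by a unit
-/

set_option autoImplicit false

namespace Pool.Agent.HTK

open NumberField mixedEmbedding

/-- positive numbers at the infinite places can be balanced by a unit -/
theorem exists_unt (K : Type) [Field K] [NumberField K] : ∃ C : ℝ, 0 < C ∧
    ∀ m : InfinitePlace K → ℝ, (∀ v, 0 < m v) → ∃ ε : (𝓞 K)ˣ, ∀ v : InfinitePlace K,
      v ((ε : 𝓞 K) : K) * m v ≤ C * (∏ v, m v ^ v.mult) ^ ((Module.finrank ℚ K : ℝ)⁻¹) := by
  classical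
  obtain ⟨C, hC⟩ := (isBounded_iff_forall_norm_le (E := mixedSpace K)).1
    (fundamentalCone.isBounded_normLeOne K)
  refine ⟨max C 1, lt_of_lt_of_le one_pos (le_max_right _ _), fun m hm => ?_⟩
  set P : ℝ := ∏ v, m v ^ v.mult with hP
  have hP0 : 0 < P := Finset.prod_pos fun v _ => pow_pos (hm v) _
  have hn : (Module.finrank ℚ K) ≠ 0 := Module.finrank_pos.ne'
  set s : ℝ := P ^ ((Module.finrank ℚ K : ℝ)⁻¹) with hs
  have hs0 : 0 < s := Real.rpow_pos_of_pos hP0 _
  have hsn : s ^ Module.finrank ℚ K = P := by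
    rw [hs]
    exact Real.rpow_inv_natCast_pow hP0.le hn
  set x : mixedSpace K := mixedSpaceOfRealSpace (K := K) m with hx
  have hxv : ∀ v : InfinitePlace K, normAtPlace v x = m v := fun v =>
    normAtPlace_mixedSpaceOfRealSpace (hm v).le
  have hxn : mixedEmbedding.norm x = P := by
    rw [mixedEmbedding.norm_apply, hP]
    exact Finset.prod_congr rfl fun v _ => by rw [hxv]
  obtain ⟨ε, hε⟩ := fundamentalCone.exists_unit_smul_mem (x := x) (by rw [hxn]; exact hP0.ne')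
  have h1 : s⁻¹ • (ε • x) ∈ fundamentalCone K :=
    fundamentalCone.smul_mem_of_mem hε (inv_ne_zero hs0.ne')
  have hεx : ε • x = mixedEmbedding K (ε : 𝓞 K) * x := rfl
  have h2 : mixedEmbedding.norm (s⁻¹ • (ε • x)) = 1 := by
    rw [mixedEmbedding.norm_smul, hεx, map_mul, mixedEmbedding.norm_unit, one_mul, hxn,
      abs_of_pos (inv_pos.2 hs0), inv_pow, hsn, inv_mul_cancel₀ hP0.ne']
  have h3 := hC _ ((fundamentalCone.mem_normLeOne (K := K)).2 ⟨h1, h2.le⟩)
  refine ⟨ε, fun v => ?_⟩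
  have h4 : normAtPlace v (s⁻¹ • (ε • x)) ≤ ‖s⁻¹ • (ε • x)‖ := by
    rw [mixedEmbedding.norm_eq_sup'_normAtPlace]
    exact Finset.le_sup' (fun w => normAtPlace w (s⁻¹ • (ε • x))) (Finset.mem_univ v)
  rw [normAtPlace_smul, hεx, map_mul, normAtPlace_apply, hxv, abs_of_pos (inv_pos.2 hs0)] at h4
  have h5 : s⁻¹ * (v ((ε : 𝓞 K) : K) * m v) ≤ max C 1 :=
    h4.trans ((hεx ▸ h3).trans (le_max_left _ _))
  rw [inv_mul_le_iff₀ hs0] at h5
  rw [mul_comm (max C 1)]
  exact h5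

end Pool.Agent.HTK
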