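import Mathlib
import Pool.Agent.HTK.Defs
import Pool.Agent.HTK.Unt
import Pool.Agent.HTK.Cls

set_option autoImplicit false

/-!
# A representative of a point in a box
-/

namespace Pool.Agent.HTK

open NumberField

theorem mulHeight_int {K : Type} [Field K] [NumberField K] {r : ℕ} (u : Fin r → 𝓞 K) (hu : u ≠ 0) :
    Height.mulHeight (fun i => (u i : K)) * cont u = ∏ v : InfinitePlace K,
      (⨆ i, v (u i : K)) ^ v.mult := by
  have h1 : (fun i => (u i : K)) ≠ 0 := by
    intro h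
    apply hu
    funext i
    have h2 : (u i : K) = 0 := congrFun h i
    exact RingOfIntegers.coe_eq_zero_iff.1 h2
  rw [NumberField.mulHeight_eq h1]
  have h2 := NumberField.absNorm_mul_finprod_finitePlace_eq_one hu
  unfold cont
  rw [mul_assoc, mul_comm (∏ᶠ v : FinitePlace K, ⨆ i, v (u i : K)), h2, mul_one]

theorem exists_bal (K : Type) [Field K] [NumberField K] (r : ℕ) : ∃ C : ℝ, 0 < C ∧
    ∀ t : Fin r → K, t ≠ 0 → ∃ (c : K) (u : Fin r → 𝓞 K), c ≠ 0 ∧ (∀ i, c * t i = u i) ∧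
      u ∈ Bx K r (C * (Height.mulHeight t) ^ ((Module.finrank ℚ K : ℝ)⁻¹)) := by
  obtain ⟨C₁, h₁⟩ := exists_cls K r
  obtain ⟨C₂, hC₂, h₂⟩ := exists_unt K
  set n : ℝ := (Module.finrank ℚ K : ℝ)⁻¹ with hn
  have hn0 : 0 ≤ n := by positivity
  refine ⟨C₂ * ((C₁ : ℝ) + 1) ^ n, by positivity, fun t ht => ?_⟩
  obtain ⟨c, u, hc, hcu, hu, hcont⟩ := h₁ t ht
  have hH : Height.mulHeight (fun i => (u i : K)) = Height.mulHeight t := by
    have h3 : (fun i => (u i : K)) = c • t := by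
      funext i
      rw [Pi.smul_apply, smul_eq_mul, hcu]
    rw [h3, Height.mulHeight_smul_eq_mulHeight t hc]
  obtain ⟨i₀, hi₀⟩ := Function.ne_iff.mp hu
  have hi₀' : (u i₀ : K) ≠ 0 := by
    intro h
    apply hi₀
    exact_mod_cast h
  have hsup : ∀ (v : InfinitePlace K) (i : Fin r), v (u i : K) ≤ ⨆ i, v (u i : K) := fun v i =>
    le_ciSup (f := fun i => v (u i : K)) (Set.finite_range _).bddAbove i
  obtain ⟨ε, hε⟩ := h₂ (fun v => ⨆ i, v (u i : K)) fun v =>
    (v.pos_iff.2 hi₀').trans_le (hsup v i₀)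
  refine ⟨((ε : 𝓞 K) : K) * c, fun i => (ε : 𝓞 K) * u i, mul_ne_zero ?_ hc, fun i => ?_,
    fun i v => ?_⟩
  · exact_mod_cast ε.ne_zero
  · rw [mul_assoc, hcu]
    push_cast
    rfl
  · have h3 : v (((ε : 𝓞 K) * u i : 𝓞 K) : K) = v ((ε : 𝓞 K) : K) * v (u i : K) := by
      push_cast
      exact map_mul v _ _
    rw [h3]
    have h4 := hε v
    rw [← mulHeight_int u hu, hH] at h4
    calc v ((ε : 𝓞 K) : K) * v (u i : K) ≤ v ((ε : 𝓞 K) : K) * ⨆ i, v (u i : K) :=
          mul_le_mul_of_nonneg_left (hsup v i) (apply_nonneg v _)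
      _ ≤ C₂ * (Height.mulHeight t * cont u) ^ n := h4
      _ ≤ C₂ * (((C₁ : ℝ) + 1) * Height.mulHeight t) ^ n := by
          refine mul_le_mul_of_nonneg_left (Real.rpow_le_rpow ?_ ?_ hn0) hC₂.le
          · exact mul_nonneg (Height.mulHeight_pos t).le (Nat.cast_nonneg _)
          · rw [mul_comm]
            refine mul_le_mul_of_nonneg_right ?_ (Height.mulHeight_pos t).le
            have : (cont u : ℝ) ≤ C₁ := by exact_mod_cast hcont
            linarith
      _ = C₂ * ((C₁ : ℝ) + 1) ^ n * Height.mulHeight t ^ n := by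
          rw [Real.mul_rpow (by positivity) (Height.mulHeight_pos t).le, mul_assoc]

end Pool.Agent.HTK
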