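import Mathlib
import Pool.Agent.HTK.Defs

set_option autoImplicit false

/-!
# Elements of an ideal in a box
-/

namespace Pool.Agent.HTK

open NumberField

namespace PackA

theorem im_eq_zero {K : Type} [Field K] (v : InfinitePlace K) (hv : v.IsReal) (x : K) :
    (v.embedding x).im = 0 := by
  have h := InfinitePlace.isReal_iff.1 hv
  rw [← ComplexEmbedding.IsReal.coe_embedding_apply h x, Complex.ofReal_im]

theorem floor_mem (y Y : ℝ) (h : |y| ≤ Y) :
    ⌊y⌋ ∈ Finset.Icc (-((⌊Y⌋₊ + 1 : ℕ) : ℤ)) ((⌊Y⌋₊ + 1 : ℕ) : ℤ) := by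
  have hY : Y < ((⌊Y⌋₊ + 1 : ℕ) : ℝ) := by
    push_cast
    exact Nat.lt_floor_add_one Y
  obtain ⟨h1, h2⟩ := abs_le.1 h
  rw [Finset.mem_Icc]
  constructor
  · rw [Int.le_floor]
    push_cast at hY ⊢
    linarith
  · have h3 : (⌊y⌋ : ℝ) ≤ ((⌊Y⌋₊ + 1 : ℕ) : ℝ) := (Int.floor_le y).trans (h2.trans hY.le)
    exact_mod_cast h3

theorem lt_of_floor (l y y' : ℝ) (hl : 0 < l) (h : ⌊y / l⌋ = ⌊y' / l⌋) : |y - y'| < l := by
  have h1 := Int.floor_le (y / l)
  have h2 := Int.lt_floor_add_one (y / l)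
  have h3 := Int.floor_le (y' / l)
  have h4 := Int.lt_floor_add_one (y' / l)
  rw [← h] at h3 h4
  have h5 : |y / l - y' / l| < 1 := by
    rw [abs_lt]
    constructor <;> linarith
  rw [← sub_div, abs_div, abs_of_pos hl, div_lt_one hl] at h5
  exact h5

theorem norm_lt (z : ℂ) (l ρ : ℝ) (hl : l = ρ / 2) (h1 : |z.re| < l) (h2 : |z.im| < l) :
    ‖z‖ < ρ := by
  have h3 : ‖z‖ ≤ |z.re| + |z.im| := Complex.norm_le_abs_re_add_abs_im z
  subst hl
  linarith

end PackA

open PackA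

theorem pack (K : Type) [Field K] [NumberField K] : ∃ C : ℝ, 0 < C ∧
    ∀ (a : Ideal (𝓞 K)), a ≠ ⊥ → ∀ X : InfinitePlace K → ℝ, (∀ v, 0 ≤ X v) →
      {t : 𝓞 K | t ∈ a ∧ ∀ v : InfinitePlace K, v (t : K) ≤ X v}.Finite ∧
      ({t : 𝓞 K | t ∈ a ∧ ∀ v : InfinitePlace K, v (t : K) ≤ X v}.ncard : ℝ) ≤
        ∏ v : InfinitePlace K,
          (C * (X v / (Ideal.absNorm a : ℝ) ^ ((Module.finrank ℚ K : ℝ)⁻¹) + 1)) ^ v.mult := by
  classical
  refine ⟨4, by norm_num, fun a ha X hX => ?_⟩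
  have hNa : 0 < Ideal.absNorm a := by
    rw [Nat.pos_iff_ne_zero, ne_eq, Ideal.absNorm_eq_zero_iff]
    exact ha
  have hn : 0 < Module.finrank ℚ K := Module.finrank_pos
  obtain ⟨ρ, hρ⟩ : ∃ ρ : ℝ, ρ = (Ideal.absNorm a : ℝ) ^ ((Module.finrank ℚ K : ℝ)⁻¹) := ⟨_, rfl⟩
  rw [← hρ]
  have hρ0 : 0 < ρ := by
    rw [hρ]
    exact Real.rpow_pos_of_pos (by exact_mod_cast hNa) _
  have hρn : ρ ^ Module.finrank ℚ K = Ideal.absNorm a := by
    rw [hρ, ← Real.rpow_natCast, ← Real.rpow_mul (by positivity), inv_mul_cancel₀ (by positivity),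
      Real.rpow_one]
  set l : ℝ := ρ / 2 with hl
  have hl0 : 0 < l := by positivity
  set S : Set (𝓞 K) := {t : 𝓞 K | t ∈ a ∧ ∀ v : InfinitePlace K, v (t : K) ≤ X v} with hS
  set f : 𝓞 K → InfinitePlace K → ℤ × ℤ := fun t v =>
    (⌊(v.embedding (t : K)).re / l⌋, ⌊(v.embedding (t : K)).im / l⌋) with hf
  set B : InfinitePlace K → Finset ℤ := fun v =>
    Finset.Icc (-((⌊X v / l⌋₊ + 1 : ℕ) : ℤ)) ((⌊X v / l⌋₊ + 1 : ℕ) : ℤ) with hB
  set T : Finset (InfinitePlace K → ℤ × ℤ) := Fintype.piFinset fun v =>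
    B v ×ˢ (if v.IsReal then {0} else B v) with hT
  have hmaps : ∀ t ∈ S, f t ∈ (T : Set (InfinitePlace K → ℤ × ℤ)) := by
    rintro t ⟨-, ht⟩
    rw [Finset.mem_coe, hT, Fintype.mem_piFinset]
    intro v
    have h1 : ‖v.embedding (t : K)‖ ≤ X v := by
      rw [InfinitePlace.norm_embedding_eq]
      exact ht v
    have hre : |(v.embedding (t : K)).re / l| ≤ X v / l := by
      rw [abs_div, abs_of_pos hl0]
      exact div_le_div_of_nonneg_right ((Complex.abs_re_le_norm _).trans h1) hl0.le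
    have him : |(v.embedding (t : K)).im / l| ≤ X v / l := by
      rw [abs_div, abs_of_pos hl0]
      exact div_le_div_of_nonneg_right ((Complex.abs_im_le_norm _).trans h1) hl0.le
    rw [Finset.mem_product]
    refine ⟨floor_mem _ _ hre, ?_⟩
    by_cases hv : v.IsReal
    · rw [if_pos hv, Finset.mem_singleton]
      change ⌊(v.embedding (t : K)).im / l⌋ = 0
      rw [im_eq_zero v hv, zero_div, Int.floor_zero]
    · rw [if_neg hv]
      exact floor_mem _ _ him
  have hinj : Set.InjOn f S := by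
    rintro t ⟨hta, -⟩ t' ⟨hta', -⟩ htt
    by_contra hne
    have hlt : ∀ v : InfinitePlace K, v ((t - t' : 𝓞 K) : K) < ρ := by
      intro v
      have h1 := congrFun htt v
      rw [← InfinitePlace.norm_embedding_eq]
      have h2 : v.embedding ((t - t' : 𝓞 K) : K) = v.embedding (t : K) - v.embedding (t' : K) := by
        rw [← map_sub]
        rfl
      refine norm_lt _ l ρ hl ?_ ?_
      · rw [h2, Complex.sub_re]
        exact lt_of_floor l _ _ hl0 (congrArg Prod.fst h1)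
      · rw [h2, Complex.sub_im]
        exact lt_of_floor l _ _ hl0 (congrArg Prod.snd h1)
    have hne' : t - t' ≠ 0 := sub_ne_zero.2 hne
    have hneK : ((t - t' : 𝓞 K) : K) ≠ 0 := fun h => hne' (RingOfIntegers.coe_injective h)
    have h3 := InfinitePlace.prod_eq_abs_norm ((t - t' : 𝓞 K) : K)
    have h4 : ∏ v : InfinitePlace K, v ((t - t' : 𝓞 K) : K) ^ v.mult <
        ∏ v : InfinitePlace K, ρ ^ v.mult := by
      refine Finset.prod_lt_prod_of_nonempty (fun v _ => ?_) (fun v _ => ?_) Finset.univ_nonempty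
      · exact pow_pos (InfinitePlace.pos_iff.2 hneK) _
      · exact pow_lt_pow_left₀ (hlt v) (apply_nonneg v _) InfinitePlace.mult_ne_zero
    rw [Finset.prod_pow_eq_pow_sum, InfinitePlace.sum_mult_eq, hρn, h3] at h4
    have h5 : (Ideal.absNorm a : ℤ) ∣ Algebra.norm ℤ (t - t') :=
      Ideal.absNorm_dvd_norm_of_mem (a.sub_mem hta hta')
    have h6 : (Ideal.absNorm a : ℤ) ≤ |Algebra.norm ℤ (t - t')| := by
      refine Int.le_of_dvd ?_ ((dvd_abs _ _).2 h5)
      rw [abs_pos, ne_eq, Algebra.norm_eq_zero_iff]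
      exact hne'
    have h7 : ((|Algebra.norm ℤ (t - t')| : ℤ) : ℝ) =
        ((|Algebra.norm ℚ ((t - t' : 𝓞 K) : K)| : ℚ) : ℝ) := by
      rw [← Algebra.coe_norm_int]
      push_cast
      rfl
    have h8 : (Ideal.absNorm a : ℝ) ≤ ((|Algebra.norm ℤ (t - t')| : ℤ) : ℝ) := by exact_mod_cast h6
    rw [h7] at h8
    exact absurd h4 (not_lt.2 (by push_cast at h8 ⊢; exact h8))
  have hfin : S.Finite := Set.Finite.of_injOn hmaps hinj T.finite_toSet
  refine ⟨hfin, ?_⟩
  have hcard : S.ncard ≤ T.card := by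
    rw [← Set.ncard_coe_finset]
    exact Set.ncard_le_ncard_of_injOn f hmaps hinj T.finite_toSet
  have hBc : ∀ v, ((B v).card : ℝ) ≤ 4 * (X v / ρ + 1) := by
    intro v
    have h1 : (B v).card = 2 * (⌊X v / l⌋₊ + 1) + 1 := by
      rw [hB]
      simp only [Int.card_Icc]
      omega
    rw [h1]
    have h2 : (⌊X v / l⌋₊ : ℝ) ≤ X v / l := Nat.floor_le (div_nonneg (hX v) hl0.le)
    have h3 : X v / l = 2 * (X v / ρ) := by
      rw [hl]
      field_simp
    have h4 : (⌊X v / l⌋₊ : ℝ) ≤ 2 * (X v / ρ) := h2.trans_eq h3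
    push_cast
    linarith
  calc (S.ncard : ℝ) ≤ T.card := by exact_mod_cast hcard
    _ = ∏ v : InfinitePlace K, (((B v).card * (if v.IsReal then {0} else B v).card : ℕ) : ℝ) := by
      rw [hT, Fintype.card_piFinset]
      push_cast
      refine Finset.prod_congr rfl fun v _ => ?_
      rw [Finset.card_product]
      push_cast
      rfl
    _ ≤ ∏ v : InfinitePlace K, (4 * (X v / ρ + 1)) ^ v.mult := by
      refine Finset.prod_le_prod (fun v _ => by positivity) fun v _ => ?_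
      have h4 : 0 ≤ 4 * (X v / ρ + 1) := by
        have := hX v
        positivity
      by_cases hv : v.IsReal
      · rw [if_pos hv, Finset.card_singleton, mul_one, InfinitePlace.mult, if_pos hv, pow_one]
        exact hBc v
      · rw [if_neg hv, InfinitePlace.mult, if_neg hv, pow_two]
        push_cast
        exact mul_le_mul (hBc v) (hBc v) (Nat.cast_nonneg _) h4

end Pool.Agent.HTK
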