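import Mathlib
import Pool.Agent.HTK.Defs
import Pool.Agent.HTK.Pack

set_option autoImplicit false

/-!
# Vectors with large content are rare
-/

namespace Pool.Agent.HTK

open NumberField Filter Topology

namespace ConA

/-- the number of ideals of norm `k` -/
noncomputable def nid (K : Type) [Field K] [NumberField K] (k : ℕ) : ℝ :=
  (Nat.card {I : Ideal (𝓞 K) // Ideal.absNorm I = k} : ℝ)

theorem nid_O (K : Type) [Field K] [NumberField K] :
    (fun n : ℕ => ∑ k ∈ Finset.Icc 1 n, nid K k) =O[atTop] fun n => (n : ℝ) ^ (1 : ℝ) := by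
  refine Asymptotics.isBigO_of_div_tendsto_nhds ?_ (dedekindZeta_residue K) ?_
  · filter_upwards [eventually_gt_atTop 0] with n hn h0
    rw [Real.rpow_one] at h0
    exact absurd (by exact_mod_cast h0 : n = 0) hn.ne'
  · have h1 : ((fun n : ℕ => ∑ k ∈ Finset.Icc 1 n, nid K k) / fun n : ℕ => (n : ℝ) ^ (1 : ℝ)) =
        fun n : ℕ => (∑ k ∈ Finset.Icc 1 n, nid K k) / (n : ℝ) := by
      funext n
      rw [Pi.div_apply, Real.rpow_one]
    rw [h1, dedekindZeta_residue_def]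
    refine ((Ideal.tendsto_norm_le_div_atTop₀ K).comp tendsto_natCast_atTop_atTop).congr
      fun n => ?_
    simp only [Function.comp_apply, Nat.cast_le, nid, ← Nat.cast_sum]
    congr
    rw [← add_left_inj 1, ← Ideal.card_norm_le_eq_card_norm_le_add_one,
      show Finset.Icc 1 n = Finset.Ioc 0 n from Finset.Icc_succ_left_eq_Ioc _ _,
      show 1 = Nat.card {I : Ideal (𝓞 K) // Ideal.absNorm I = 0} by
        simp [Ideal.absNorm_eq_zero_iff],
      Finset.sum_Ioc_add_eq_sum_Icc (n.zero_le),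
      ← Finset.card_preimage_eq_sum_card_image_eq
        (fun k _ => Ideal.finite_setOfPred_absNorm_eq k)]
    simp [Set.coe_eq_subtype]

theorem summ_nid (K : Type) [Field K] [NumberField K] :
    Summable fun k : ℕ => nid K k / (k : ℝ) ^ 2 := by
  have h1 : LSeriesSummable (fun k => (nid K k : ℂ)) (2 : ℂ) := by
    refine LSeriesSummable_of_sum_norm_bigO_and_nonneg (nid_O K) (fun k => Nat.cast_nonneg _)
      zero_le_one ?_
    norm_num
  have h2 := h1.norm
  refine h2.congr fun k => ?_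
  rw [LSeries.norm_term_eq]
  split_ifs with h
  · rw [h]
    simp
  · have h3 : ‖(nid K k : ℂ)‖ = nid K k := by
      rw [Complex.norm_real]
      exact Real.norm_of_nonneg (Nat.cast_nonneg _)
    rw [h3]
    norm_num

theorem summ_id (K : Type) [Field K] [NumberField K] :
    Summable fun a : Ideal (𝓞 K) => (1 : ℝ) / (Ideal.absNorm a : ℝ) ^ 2 := by
  classical
  refine summable_of_sum_le (c := ∑' k : ℕ, nid K k / (k : ℝ) ^ 2) (fun a => by positivity)
    fun t => ?_
  rw [← Finset.sum_fiberwise_of_maps_to (g := fun a => Ideal.absNorm a)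
    (t := t.image fun a => Ideal.absNorm a) (fun a ha => Finset.mem_image_of_mem _ ha)]
  refine le_trans (Finset.sum_le_sum fun k _ => ?_)
    ((summ_nid K).sum_le_tsum (t.image fun a => Ideal.absNorm a) fun k _ =>
      div_nonneg (Nat.cast_nonneg _) (by positivity))
  have h1 : ∑ a ∈ t with Ideal.absNorm a = k, (1 : ℝ) / (Ideal.absNorm a : ℝ) ^ 2 =
      ((t.filter fun a => Ideal.absNorm a = k).card : ℝ) * (1 / (k : ℝ) ^ 2) := by
    rw [← nsmul_eq_mul, ← Finset.sum_const]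
    refine Finset.sum_congr rfl fun a ha => ?_
    rw [(Finset.mem_filter.1 ha).2]
  rw [h1, mul_one_div]
  refine div_le_div_of_nonneg_right ?_ (by positivity)
  unfold nid
  rw [Nat.cast_le]
  have h2 : Finite {I : Ideal (𝓞 K) // Ideal.absNorm I = k} :=
    (Ideal.finite_setOfPred_absNorm_eq k).to_subtype
  rw [← Set.ncard_coe_finset]
  exact Set.ncard_le_ncard (t := {I : Ideal (𝓞 K) | Ideal.absNorm I = k})
    (fun a ha => (Finset.mem_filter.1 (Finset.mem_coe.1 ha)).2)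
    (Ideal.finite_setOfPred_absNorm_eq k)

/-- the norm of the content is at most the norm of a box -/
theorem cont_le {K : Type} [Field K] [NumberField K] {r : ℕ} (u : Fin r → 𝓞 K) (X : ℝ)
    (hu : u ∈ Bx K r X) (h0 : u ≠ 0) : (cont u : ℝ) ≤ X ^ (Module.finrank ℚ K) := by
  obtain ⟨i, hi⟩ := Function.ne_iff.1 h0
  have h1 : cont u ∣ (Algebra.norm ℤ (u i)).natAbs := by
    have := Ideal.absNorm_dvd_norm_of_mem (I := Ideal.span (Set.range u))
      (Ideal.subset_span (Set.mem_range_self i))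
    exact Int.natCast_dvd.1 this
  have h2 : Algebra.norm ℤ (u i) ≠ 0 := Algebra.norm_ne_zero_iff.2 hi
  have h3 : cont u ≤ (Algebra.norm ℤ (u i)).natAbs := Nat.le_of_dvd (Int.natAbs_pos.2 h2) h1
  have h4 : ∏ v : InfinitePlace K, v (u i : K) ^ v.mult ≤ ∏ v : InfinitePlace K, X ^ v.mult :=
    Finset.prod_le_prod (fun v _ => by positivity) fun v _ =>
      pow_le_pow_left₀ (apply_nonneg _ _) (hu i v) _
  rw [InfinitePlace.prod_eq_abs_norm, Finset.prod_pow_eq_pow_sum, InfinitePlace.sum_mult_eq] at h4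
  have h6 : (Algebra.norm ℚ (u i : K)) = ((Algebra.norm ℤ (u i) : ℤ) : ℚ) :=
    (Algebra.coe_norm_int (u i)).symm
  rw [h6] at h4
  refine le_trans ?_ h4
  have h7 : ((cont u : ℕ) : ℝ) ≤ (((Algebra.norm ℤ (u i)).natAbs : ℕ) : ℝ) := Nat.cast_le.2 h3
  refine h7.trans (le_of_eq ?_)
  rw [Nat.cast_natAbs]
  push_cast
  rfl

end ConA

open ConA

theorem con (K : Type) [Field K] [NumberField K] (r : ℕ) (hr : 2 ≤ r) (ε : ℝ) (hε : 0 < ε) :
    ∃ (G : ℕ) (X₀ : ℝ), ∀ X : ℝ, X₀ ≤ X →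
      (({u | u ∈ Bx K r X ∧ G < cont u} : Set (Fin r → 𝓞 K)).ncard : ℝ) ≤
        ε * X ^ (Module.finrank ℚ K * r) := by
  classical
  obtain ⟨C, hC, hp⟩ := pack K
  set n := Module.finrank ℚ K with hn
  have hn0 : n ≠ 0 := (Module.finrank_pos (R := ℚ) (M := K)).ne'
  have hS := summ_id K
  rw [summable_iff_vanishing_norm] at hS
  have hA : 0 < (2 * C) ^ (n * r) := by positivity
  obtain ⟨s, hs⟩ := hS (ε / (2 * C) ^ (n * r)) (div_pos hε hA)
  refine ⟨s.sup fun a => Ideal.absNorm a, 1, fun X hX => ?_⟩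
  set G := s.sup fun a => Ideal.absNorm a with hG
  have hX0 : 0 < X := lt_of_lt_of_le one_pos hX
  set T : Finset (Ideal (𝓞 K)) :=
    (Ideal.finite_setOfPred_absNorm_le (S := 𝓞 K) ⌊X ^ n⌋₊).toFinset.filter
      fun a => G < Ideal.absNorm a with hT
  have hTm : ∀ a, a ∈ T ↔ (Ideal.absNorm a : ℝ) ≤ X ^ n ∧ G < Ideal.absNorm a := by
    intro a
    rw [hT, Finset.mem_filter, Set.Finite.mem_toFinset]
    refine and_congr ?_ Iff.rfl
    exact Nat.le_floor_iff (by positivity)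
  have hdis : Disjoint T s := by
    rw [Finset.disjoint_left]
    intro a ha has
    have h1 : Ideal.absNorm a ≤ G := Finset.le_sup (f := fun a => Ideal.absNorm a) has
    exact absurd ((hTm a).1 ha).2 (not_lt.2 h1)
  have hsum := hs T hdis
  set S : Ideal (𝓞 K) → Set (𝓞 K) := fun a =>
    {t : 𝓞 K | t ∈ a ∧ ∀ v : InfinitePlace K, v (t : K) ≤ (fun _ => X) v} with hSd
  have hSf : ∀ a ∈ T, (S a).Finite ∧ ((S a).ncard : ℝ) ≤
      (2 * C) ^ n * X ^ n / (Ideal.absNorm a : ℝ) := by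
    intro a ha
    obtain ⟨ha1, ha2⟩ := (hTm a).1 ha
    have hpos : 0 < Ideal.absNorm a := lt_of_le_of_lt (Nat.zero_le _) ha2
    have hN : 0 < (Ideal.absNorm a : ℝ) := by exact_mod_cast hpos
    have hab : a ≠ ⊥ := fun h => hpos.ne' (Ideal.absNorm_eq_zero_iff.2 h)
    obtain ⟨h1, h2⟩ := hp a hab (fun _ => X) (fun _ => hX0.le)
    refine ⟨h1, h2.trans ?_⟩
    rw [Finset.prod_pow_eq_pow_sum, InfinitePlace.sum_mult_eq, ← hn]
    set ρ : ℝ := (Ideal.absNorm a : ℝ) ^ ((n : ℝ)⁻¹) with hρ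
    have hρ0 : 0 < ρ := Real.rpow_pos_of_pos hN _
    have hρ1 : ρ ^ n = (Ideal.absNorm a : ℝ) := Real.rpow_inv_natCast_pow hN.le hn0
    have hρX : ρ ≤ X := by
      rw [← hρ1] at ha1
      exact le_of_pow_le_pow_left₀ hn0 hX0.le ha1
    have h3 : 1 ≤ X / ρ := (one_le_div hρ0).2 hρX
    calc (C * (X / ρ + 1)) ^ n ≤ (2 * C * (X / ρ)) ^ n := by
          refine pow_le_pow_left₀ (by positivity) ?_ _
          nlinarith
      _ = (2 * C) ^ n * X ^ n / (Ideal.absNorm a : ℝ) := by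
          rw [mul_pow, div_pow, hρ1, mul_div_assoc]
  set P : Ideal (𝓞 K) → Finset (Fin r → 𝓞 K) := fun a =>
    if h : (S a).Finite then Fintype.piFinset fun _ => h.toFinset else ∅ with hP
  have hsub : ({u | u ∈ Bx K r X ∧ G < cont u} : Set (Fin r → 𝓞 K)) ⊆ ↑(T.biUnion P) := by
    rintro u ⟨hu1, hu2⟩
    have h0 : u ≠ 0 := by
      rintro rfl
      have : cont (0 : Fin r → 𝓞 K) = 0 := by
        unfold cont
        rw [Ideal.absNorm_eq_zero_iff, Ideal.span_eq_bot]
        rintro x ⟨i, rfl⟩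
        rfl
      rw [this] at hu2
      exact Nat.not_lt_zero _ hu2
    have h1 : Ideal.span (Set.range u) ∈ T := (hTm _).2 ⟨cont_le u X hu1 h0, hu2⟩
    rw [Finset.mem_coe, Finset.mem_biUnion]
    refine ⟨_, h1, ?_⟩
    rw [hP]
    simp only
    rw [dif_pos (hSf _ h1).1, Fintype.mem_piFinset]
    intro i
    rw [Set.Finite.mem_toFinset]
    exact ⟨Ideal.subset_span (Set.mem_range_self i), fun v => hu1 i v⟩
  have h1 : ({u | u ∈ Bx K r X ∧ G < cont u} : Set (Fin r → 𝓞 K)).ncard ≤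
      ∑ a ∈ T, (P a).card := by
    refine le_trans (Set.ncard_le_ncard hsub (Finset.finite_toSet _)) ?_
    rw [Set.ncard_coe_finset]
    exact Finset.card_biUnion_le
  refine le_trans (Nat.cast_le.2 h1) ?_
  push_cast
  have h2 : ∀ a ∈ T, ((P a).card : ℝ) ≤
      (2 * C) ^ (n * r) * X ^ (n * r) * (1 / (Ideal.absNorm a : ℝ) ^ 2) := by
    intro a ha
    obtain ⟨ha1, ha2⟩ := (hTm a).1 ha
    have hpos : 0 < Ideal.absNorm a := lt_of_le_of_lt (Nat.zero_le _) ha2
    have hN : 0 < (Ideal.absNorm a : ℝ) := by exact_mod_cast hpos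
    have hN1 : 1 ≤ (Ideal.absNorm a : ℝ) := by exact_mod_cast hpos
    rw [hP]
    simp only
    rw [dif_pos (hSf _ ha).1, Fintype.card_piFinset, Finset.prod_const, Finset.card_univ,
      Fintype.card_fin, ← Set.ncard_eq_toFinset_card (S a) (hSf _ ha).1]
    push_cast
    refine (pow_le_pow_left₀ (Nat.cast_nonneg _) (hSf a ha).2 r).trans ?_
    rw [div_pow, mul_pow, ← pow_mul, ← pow_mul, mul_one_div]
    refine div_le_div_of_nonneg_left (by positivity) (by positivity) ?_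
    exact pow_le_pow_right₀ hN1 hr
  refine (Finset.sum_le_sum h2).trans ?_
  rw [← Finset.mul_sum]
  have h3 : ∑ a ∈ T, (1 : ℝ) / (Ideal.absNorm a : ℝ) ^ 2 ≤ ε / (2 * C) ^ (n * r) :=
    (le_trans (le_abs_self _) hsum.le)
  calc (2 * C) ^ (n * r) * X ^ (n * r) * ∑ a ∈ T, (1 : ℝ) / (Ideal.absNorm a : ℝ) ^ 2
      ≤ (2 * C) ^ (n * r) * X ^ (n * r) * (ε / (2 * C) ^ (n * r)) :=
        mul_le_mul_of_nonneg_left h3 (by positivity)
    _ = ε * X ^ (n * r) := by
        field_simp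

end Pool.Agent.HTK
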