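import Mathlib
import Pool.Agent.HTK.Defs

set_option autoImplicit false

/-!
# A point of projective space has few representatives in a box with bounded content
-/

namespace Pool.Agent.HTK

open NumberField

namespace MulA

theorem fin_set (K : Type) [Field K] [NumberField K] (B : ℝ) :
    {x : 𝓞 K | ∀ v : InfinitePlace K, v (x : K) ≤ B}.Finite := by
  have h := NumberField.Embeddings.finite_of_norm_le K ℂ B
  have h2 : Set.InjOn (fun x : 𝓞 K => (x : K))
      ((fun x : 𝓞 K => (x : K)) ⁻¹' {x : K | IsIntegral ℤ x ∧ ∀ φ : K →+* ℂ, ‖φ x‖ ≤ B}) :=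
    fun x _ y _ hxy => NumberField.RingOfIntegers.ext hxy
  refine (h.preimage h2).subset ?_
  intro x hx
  refine ⟨NumberField.RingOfIntegers.isIntegral_coe x, fun φ => ?_⟩
  have h3 := hx (InfinitePlace.mk φ)
  rwa [InfinitePlace.apply] at h3

theorem exists_coef {K : Type} [Field K] [NumberField K] {r : ℕ} (u : Fin r → 𝓞 K) :
    ∃ a : Fin r → 𝓞 K, ∑ i, a i * u i = (cont u : 𝓞 K) := by
  have h : ((cont u : ℕ) : 𝓞 K) ∈ Ideal.span (Set.range u) := Ideal.absNorm_mem _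
  exact (Ideal.mem_span_range_iff_exists_fun).1 h

theorem cont_ne_zero {K : Type} [Field K] [NumberField K] {r : ℕ} (u : Fin r → 𝓞 K) (i : Fin r)
    (hi : u i ≠ 0) : cont u ≠ 0 := by
  intro h
  have h2 : Ideal.span (Set.range u) = ⊥ := Ideal.absNorm_eq_zero_iff.1 h
  apply hi
  have h3 : u i ∈ Ideal.span (Set.range u) := Ideal.subset_span (Set.mem_range_self i)
  rw [h2] at h3
  exact h3

theorem key {K : Type} [Field K] [NumberField K] {r G : ℕ} {δ X : ℝ} (hδ : 0 < δ) (hX : 0 < X)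
    {t : Fin r → K} {u u0 : Fin r → 𝓞 K} (hu : u ∈ Bx K r X)
    (h0c : cont u0 ≤ G) (h0 : ∀ v : InfinitePlace K, ∃ i, δ * X ≤ v (u0 i : K))
    {c c0 : K} (hc : ∀ i, (u i : K) = c * t i) (hc0 : ∀ i, (u0 i : K) = c0 * t i) :
    ∃ x : 𝓞 K, (∀ i, ((G.factorial : ℕ) : 𝓞 K) * u i = x * u0 i) ∧
      ∀ v : InfinitePlace K, v (x : K) ≤ G.factorial / δ := by
  obtain ⟨v0⟩ : Nonempty (InfinitePlace K) := inferInstance
  have hδX : 0 < δ * X := mul_pos hδ hX
  obtain ⟨i0, hi0⟩ := h0 v0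
  have hne : u0 i0 ≠ 0 := by
    intro h
    rw [h] at hi0
    simp only [map_zero] at hi0
    linarith
  have hneK : (u0 i0 : K) ≠ 0 := by
    intro h
    exact hne (NumberField.RingOfIntegers.ext (by simpa using h))
  have hc0ne : c0 ≠ 0 := by
    intro h
    rw [hc0 i0, h, zero_mul] at hneK
    exact hneK rfl
  have hN : cont u0 ≠ 0 := cont_ne_zero u0 i0 hne
  obtain ⟨a, ha⟩ := exists_coef u0
  obtain ⟨q, hq⟩ : cont u0 ∣ G.factorial := Nat.dvd_factorial (Nat.pos_of_ne_zero hN) h0c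
  have hrel : ∀ i, (cont u0 : 𝓞 K) * u i = (∑ j, a j * u j) * u0 i := by
    intro i
    have hK : (cont u0 : K) * (u i : K) = (∑ j, (a j : K) * (u j : K)) * (u0 i : K) := by
      have haK : ∑ j, (a j : K) * (u0 j : K) = (cont u0 : K) := by
        have := congrArg (fun x : 𝓞 K => (x : K)) ha
        simpa using this
      apply mul_left_cancel₀ hc0ne
      calc c0 * ((cont u0 : K) * (u i : K))
          = (cont u0 : K) * (c * (c0 * t i)) := by rw [hc i]; ring
        _ = (cont u0 : K) * (c * (u0 i : K)) := by rw [← hc0 i]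
        _ = (∑ j, (a j : K) * (u0 j : K)) * (c * (u0 i : K)) := by rw [haK]
        _ = (∑ j, (a j : K) * (c0 * (u j : K))) * (u0 i : K) := by
            rw [Finset.sum_mul, Finset.sum_mul]
            refine Finset.sum_congr rfl fun j _ => ?_
            rw [hc j, hc0 j]; ring
        _ = c0 * ((∑ j, (a j : K) * (u j : K)) * (u0 i : K)) := by
            rw [← mul_assoc, Finset.mul_sum]
            refine congrArg (· * (u0 i : K)) (Finset.sum_congr rfl fun j _ => ?_)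
            ring
    apply NumberField.RingOfIntegers.ext
    simpa using hK
  refine ⟨(q : 𝓞 K) * ∑ j, a j * u j, fun i => ?_, fun v => ?_⟩
  · rw [hq, Nat.cast_mul, mul_assoc (q : 𝓞 K), ← hrel i]
    ring
  · obtain ⟨i, hi⟩ := h0 v
    have h1 : ((G.factorial : ℕ) : 𝓞 K) * u i = ((q : 𝓞 K) * ∑ j, a j * u j) * u0 i := by
      rw [hq, Nat.cast_mul, mul_assoc (q : 𝓞 K), ← hrel i]
      ring
    have h2 : ((G.factorial : ℕ) : K) * (u i : K)
        = (((q : 𝓞 K) * ∑ j, a j * u j : 𝓞 K) : K) * (u0 i : K) := by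
      have := congrArg (fun x : 𝓞 K => (x : K)) h1
      simpa using this
    have h3 := congrArg (fun x : K => v x) h2
    rw [map_mul, map_mul, NumberField.InfinitePlace.map_natCast] at h3
    have h4 : v (((q : 𝓞 K) * ∑ j, a j * u j : 𝓞 K) : K) * (δ * X) ≤ (G.factorial : ℝ) * X := by
      calc v (((q : 𝓞 K) * ∑ j, a j * u j : 𝓞 K) : K) * (δ * X)
          ≤ v (((q : 𝓞 K) * ∑ j, a j * u j : 𝓞 K) : K) * v (u0 i : K) :=
            mul_le_mul_of_nonneg_left hi (apply_nonneg v _)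
        _ = (G.factorial : ℝ) * v (u i : K) := h3.symm
        _ ≤ (G.factorial : ℝ) * X := mul_le_mul_of_nonneg_left (hu i v) (Nat.cast_nonneg _)
    rw [le_div_iff₀ hδ]
    exact le_of_mul_le_mul_right (by linarith [h4]) hX

end MulA

theorem mul (K : Type) [Field K] [NumberField K] (r G : ℕ) (δ : ℝ) (hδ : 0 < δ) :
    ∃ A : ℕ, ∀ (X : ℝ) (t : Fin r → K), 0 < X → t ≠ 0 →
      ({u | u ∈ Bx K r X ∧ cont u ≤ G ∧ (∀ v : InfinitePlace K, ∃ i, δ * X ≤ v (u i : K)) ∧
        ∃ c : K, ∀ i, (u i : K) = c * t i} : Set (Fin r → 𝓞 K)).ncard ≤ A := by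
  classical
  refine ⟨{x : 𝓞 K | ∀ v : InfinitePlace K, v (x : K) ≤ G.factorial / δ}.ncard, ?_⟩
  intro X t hX _
  set S : Set (Fin r → 𝓞 K) := {u | u ∈ Bx K r X ∧ cont u ≤ G ∧
    (∀ v : InfinitePlace K, ∃ i, δ * X ≤ v (u i : K)) ∧ ∃ c : K, ∀ i, (u i : K) = c * t i} with hS
  rcases S.eq_empty_or_nonempty with h | ⟨u0, hu0⟩
  · rw [h]; simp
  · obtain ⟨hb0, hcon0, hbal0, c0, hc0⟩ := hu0
    have hex : ∀ u ∈ S, ∃ x : 𝓞 K, (∀ i, ((G.factorial : ℕ) : 𝓞 K) * u i = x * u0 i) ∧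
        ∀ v : InfinitePlace K, v (x : K) ≤ G.factorial / δ := by
      intro u hu
      obtain ⟨hb, _, _, c, hc⟩ := hu
      exact MulA.key hδ hX hb hcon0 hbal0 hc hc0
    choose! f hf1 hf2 using hex
    refine Set.ncard_le_ncard_of_injOn f (fun u hu => hf2 u hu) ?_ (MulA.fin_set K _)
    intro u hu u' hu' h
    funext i
    have h1 := hf1 u hu i
    have h2 := hf1 u' hu' i
    rw [h, ← h2] at h1
    have h3 : ((G.factorial : ℕ) : 𝓞 K) ≠ 0 := by
      exact_mod_cast G.factorial_ne_zero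
    exact mul_left_cancel₀ h3 h1

end Pool.Agent.HTK
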