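import Mathlib
import Pool.Agent.HTK.Defs

set_option autoImplicit false

/-!
# Integers of a number field: coordinates in an integral basis, and boxes
-/

namespace Pool.Agent.HTK

open NumberField

theorem exists_rep (K : Type) [Field K] [NumberField K] {m : ℕ} (ω : Module.Basis (Fin m) ℤ (𝓞 K)) :
    ∃ C : ℝ, 0 < C ∧ ∀ (X : ℝ) (a : 𝓞 K), (∀ v : InfinitePlace K, v (a : K) ≤ X) →
      ∀ j, |((ω.repr a j : ℤ) : ℝ)| ≤ C * X := by
  classical
  let b : Module.Basis (Fin m) ℚ K := ω.localizationLocalization ℚ (nonZeroDivisors ℤ) K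
  let M : ℝ := ∑ j : Fin m, ∑ σ : K →ₐ[ℚ] ℂ, ‖σ (b.traceDual j)‖
  have hM : 0 ≤ M := Finset.sum_nonneg fun j _ => Finset.sum_nonneg fun σ _ => norm_nonneg _
  refine ⟨M + 1, by linarith, fun X a ha j => ?_⟩
  have hX : 0 ≤ X := le_trans (apply_nonneg _ _) (ha (Classical.arbitrary _))
  have h1 : ((ω.repr a j : ℤ) : ℚ) = Algebra.trace ℚ K ((a : K) * b.traceDual j) := by
    have e1 := b.traceDual.traceDual_repr_apply (a : K) j
    rw [Module.Basis.traceDual_traceDual] at e1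
    have e2 : b.repr (a : K) j = ((ω.repr a j : ℤ) : ℚ) := by
      exact Module.Basis.localizationLocalization_repr_algebraMap ℚ (nonZeroDivisors ℤ) K ω a j
    rw [← e2, e1, Algebra.traceForm_apply]
  have h2 : (((ω.repr a j : ℤ) : ℝ) : ℂ) = ∑ σ : K →ₐ[ℚ] ℂ, σ (a : K) * σ (b.traceDual j) := by
    have e3 := trace_eq_sum_embeddings (K := ℚ) (L := K) ℂ (x := (a : K) * b.traceDual j)
    rw [← h1] at e3
    simp only [map_mul] at e3
    rw [← e3]
    simp
  have h3 : |((ω.repr a j : ℤ) : ℝ)| = ‖(((ω.repr a j : ℤ) : ℝ) : ℂ)‖ := by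
    rw [Complex.norm_real, Real.norm_eq_abs]
  rw [h3, h2]
  refine le_trans (norm_sum_le _ _) ?_
  have h4 : ∀ σ : K →ₐ[ℚ] ℂ, ‖σ (a : K) * σ (b.traceDual j)‖ ≤ X * ‖σ (b.traceDual j)‖ := by
    intro σ
    rw [norm_mul]
    refine mul_le_mul_of_nonneg_right ?_ (norm_nonneg _)
    have := ha (InfinitePlace.mk (σ : K →+* ℂ))
    rw [InfinitePlace.apply] at this
    exact this
  refine le_trans (Finset.sum_le_sum fun σ _ => h4 σ) ?_
  rw [← Finset.mul_sum, mul_comm]
  refine mul_le_mul_of_nonneg_right ?_ hX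
  have h5 : ∑ σ : K →ₐ[ℚ] ℂ, ‖σ (b.traceDual j)‖ ≤ M :=
    Finset.single_le_sum (f := fun j : Fin m => ∑ σ : K →ₐ[ℚ] ℂ, ‖σ (b.traceDual j)‖)
      (fun j _ => Finset.sum_nonneg fun σ _ => norm_nonneg _) (Finset.mem_univ j)
  linarith

theorem exists_up (K : Type) [Field K] [NumberField K] {m : ℕ} (ω : Fin m → 𝓞 K) :
    ∃ C : ℝ, 0 < C ∧ ∀ (X : ℝ) (z : Fin m → ℤ), 0 ≤ X → (∀ j, |(z j : ℝ)| ≤ X) →
      ∀ v : InfinitePlace K, v ((∑ j, z j • ω j : 𝓞 K) : K) ≤ C * X := by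
  classical
  let M : ℝ := ∑ v : InfinitePlace K, ∑ j : Fin m, v (ω j : K)
  have hM : 0 ≤ M := Finset.sum_nonneg fun v _ => Finset.sum_nonneg fun j _ => apply_nonneg _ _
  refine ⟨M + 1, by linarith, fun X z hX hz v => ?_⟩
  have h1 : ((∑ j, z j • ω j : 𝓞 K) : K) = ∑ j, (z j : K) * (ω j : K) := by
    simp [zsmul_eq_mul]
  have h2 : v (∑ j, (z j : K) * (ω j : K)) ≤ ∑ j, v ((z j : K) * (ω j : K)) := by
    rw [← InfinitePlace.norm_embedding_eq v]
    simp_rw [← InfinitePlace.norm_embedding_eq v]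
    rw [map_sum]
    exact norm_sum_le _ _
  have h3 : ∀ j, v ((z j : K) * (ω j : K)) ≤ X * v (ω j : K) := by
    intro j
    rw [map_mul]
    refine mul_le_mul_of_nonneg_right ?_ (apply_nonneg _ _)
    rw [← InfinitePlace.norm_embedding_eq v]
    simpa using hz j
  rw [h1]
  refine le_trans h2 (le_trans (Finset.sum_le_sum fun j _ => h3 j) ?_)
  rw [← Finset.mul_sum, mul_comm]
  refine mul_le_mul_of_nonneg_right ?_ hX
  have h5 : ∑ j : Fin m, v (ω j : K) ≤ M :=
    Finset.single_le_sum (f := fun v : InfinitePlace K => ∑ j : Fin m, v (ω j : K))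
      (fun v _ => Finset.sum_nonneg fun j _ => apply_nonneg _ _) (Finset.mem_univ v)
  linarith

theorem bx_finite (K : Type) [Field K] [NumberField K] (r : ℕ) (X : ℝ) : (Bx K r X).Finite := by
  have h1 := NumberField.Embeddings.finite_of_norm_le K ℂ X
  have h2 : {t : 𝓞 K | ∀ v : InfinitePlace K, v (t : K) ≤ X}.Finite := by
    refine Set.Finite.subset (h1.preimage (f := fun t : 𝓞 K => (t : K))
      RingOfIntegers.coe_injective.injOn) ?_
    intro t ht
    refine ⟨t.isIntegral_coe, fun φ => ?_⟩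
    have := ht (InfinitePlace.mk φ)
    rw [InfinitePlace.apply] at this
    exact this
  refine Set.Finite.subset (Set.Finite.pi' fun _ : Fin r => h2) ?_
  intro u hu i
  exact hu i

theorem tot (K : Type) [Field K] [NumberField K] (r : ℕ) : ∃ c X₀ : ℝ, 0 < c ∧ ∀ X : ℝ, X₀ ≤ X →
    c * X ^ (Module.finrank ℚ K * r) ≤ ((Bx K r X).ncard : ℝ) := by
  classical
  let n := Module.finrank ℤ (𝓞 K)
  have hn : n = Module.finrank ℚ K := RingOfIntegers.rank K
  let ω : Module.Basis (Fin n) ℤ (𝓞 K) := Module.finBasis ℤ (𝓞 K)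
  obtain ⟨C, hC, h⟩ := exists_up K ω
  refine ⟨(1 / C) ^ (n * r), C, by positivity, fun X hX => ?_⟩
  have hX0 : 0 < X := lt_of_lt_of_le hC hX
  have hY : 1 ≤ X / C := by rwa [le_div_iff₀ hC, one_mul]
  have hY0 : 0 ≤ X / C := by linarith
  let q : ℤ := ⌊X / C⌋
  have hq : (q : ℝ) ≤ X / C := Int.floor_le _
  have hq2 : X / C < q + 1 := Int.lt_floor_add_one _
  have hq0 : 0 ≤ q := Int.floor_nonneg.2 hY0
  let S : Finset (Fin r → Fin n → ℤ) :=
    Fintype.piFinset fun _ => Fintype.piFinset fun _ => Finset.Icc (-q) q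
  let g : (Fin r → Fin n → ℤ) → (Fin r → 𝓞 K) := fun z i => ∑ j, z i j • ω j
  have hg : Function.Injective g := by
    intro z w hzw
    funext i j
    have e : ∑ j, z i j • ω j = ∑ j, w i j • ω j := congrFun hzw i
    have e1 : ∀ x : Fin n → ℤ, ω.repr (∑ j, x j • ω j) j = x j := by
      intro x
      rw [Module.Basis.repr_sum_self]
    rw [← e1 (z i), ← e1 (w i), e]
  have hsub : (S.image g : Set (Fin r → 𝓞 K)) ⊆ Bx K r X := by
    intro u hu
    rw [Finset.coe_image] at hu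
    obtain ⟨z, hz, rfl⟩ := hu
    rw [Finset.mem_coe, Fintype.mem_piFinset] at hz
    intro i v
    have hz2 : ∀ j, |(z i j : ℝ)| ≤ X / C := by
      intro j
      have h1 := Fintype.mem_piFinset.1 (hz i) j
      rw [Finset.mem_Icc] at h1
      have h2 : |z i j| ≤ q := abs_le.2 h1
      have h3 : ((|z i j| : ℤ) : ℝ) ≤ q := by exact_mod_cast h2
      rw [Int.cast_abs] at h3
      linarith
    have := h (X / C) (z i) hY0 hz2 v
    rwa [mul_div_cancel₀ _ hC.ne'] at this
  have hcard : (S.card : ℝ) ≤ ((Bx K r X).ncard : ℝ) := by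
    have h1 := Set.ncard_le_ncard hsub (bx_finite K r X)
    rw [Set.ncard_coe_finset, Finset.card_image_of_injective _ hg] at h1
    exact_mod_cast h1
  refine le_trans ?_ hcard
  have hS : S.card = (2 * q + 1).toNat ^ (n * r) := by
    simp only [S, Fintype.card_piFinset, Int.card_Icc, Finset.prod_const, Finset.card_univ,
      Fintype.card_fin]
    rw [← pow_mul]
    congr 1
    congr 1
    ring
  rw [hS, ← hn]
  rw [← mul_pow, one_div_mul_eq_div]
  push_cast
  refine pow_le_pow_left₀ hY0 ?_ _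
  have h3 : (((2 * q + 1).toNat : ℤ) : ℝ) = 2 * q + 1 := by
    rw [Int.toNat_of_nonneg (by linarith)]
    push_cast
    ring
  have h4 : (((2 * q + 1).toNat : ℕ) : ℝ) = 2 * q + 1 := by
    rw [← h3]
    norm_cast
  rw [h4]
  have : (0 : ℝ) ≤ q := by exact_mod_cast hq0
  linarith

end Pool.Agent.HTK
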