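import Mathlib
import Pool.Agent.HTK.Defs
import Pool.Agent.HTK.Pack

set_option autoImplicit false

/-!
# Vectors which are small at one place are rare
-/

namespace Pool.Agent.HTK

open NumberField

theorem thin (K : Type) [Field K] [NumberField K] (r : ℕ) (hr : 1 ≤ r) (ε : ℝ) (hε : 0 < ε) :
    ∃ (δ : ℝ) (X₀ : ℝ), 0 < δ ∧ ∀ X : ℝ, X₀ ≤ X →
      (({u | u ∈ Bx K r X ∧ ∃ v : InfinitePlace K, ∀ i, v (u i : K) < δ * X} :
        Set (Fin r → 𝓞 K)).ncard : ℝ) ≤ ε * X ^ (Module.finrank ℚ K * r) := by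
  classical
  obtain ⟨C, hC, hp⟩ := pack K
  obtain ⟨p, hpc⟩ : ∃ p : ℕ, p = Fintype.card (InfinitePlace K) := ⟨_, rfl⟩
  have hp0 : 0 < p := hpc ▸ Fintype.card_pos
  obtain ⟨M, hM⟩ : ∃ M : ℝ, M = (2 * C) ^ (Module.finrank ℚ K * r) := ⟨_, rfl⟩
  have hM0 : 0 < M := hM ▸ by positivity
  obtain ⟨δ, hδ⟩ : ∃ δ : ℝ, δ = min 1 (ε / (p * M)) := ⟨_, rfl⟩
  have hδ0 : 0 < δ := hδ ▸ lt_min one_pos (by positivity)
  have hδ1 : δ ≤ 1 := hδ ▸ min_le_left _ _
  have hδ2 : δ * (p * M) ≤ ε := by
    rw [← le_div_iff₀ (by positivity)]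
    exact hδ ▸ min_le_right _ _
  refine ⟨δ, δ⁻¹, hδ0, fun X hX => ?_⟩
  have hX0 : 0 ≤ X := (inv_pos.2 hδ0).le.trans hX
  have hX1 : 1 ≤ δ * X := by
    have h := mul_le_mul_of_nonneg_left hX hδ0.le
    rwa [mul_inv_cancel₀ hδ0.ne'] at h
  have hX2 : 1 ≤ X := hX1.trans (mul_le_of_le_one_left hX0 hδ1)
  set Y : InfinitePlace K → InfinitePlace K → ℝ := fun v w => if w = v then δ * X else X with hY
  have hY0 : ∀ v w, 0 ≤ Y v w := by
    intro v w
    change 0 ≤ if w = v then δ * X else X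
    split_ifs
    · linarith
    · exact hX0
  set S : InfinitePlace K → Set (𝓞 K) := fun v =>
    {t : 𝓞 K | t ∈ (⊤ : Ideal (𝓞 K)) ∧ ∀ w : InfinitePlace K, w (t : K) ≤ Y v w} with hS
  have hS1 : ∀ v, (S v).Finite := fun v => (hp ⊤ top_ne_bot (Y v) (hY0 v)).1
  have hS2 : ∀ v, ((S v).ncard : ℝ) ≤ δ * (2 * C * X) ^ Module.finrank ℚ K := by
    intro v
    refine (hp ⊤ top_ne_bot (Y v) (hY0 v)).2.trans ?_
    rw [Ideal.absNorm_top, Nat.cast_one, Real.one_rpow]
    calc ∏ w : InfinitePlace K, (C * (Y v w / 1 + 1)) ^ w.mult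
        ≤ ∏ w : InfinitePlace K, ((if w = v then δ else 1) ^ w.mult * (2 * C * X) ^ w.mult) := by
          refine Finset.prod_le_prod (fun w _ => ?_) fun w _ => ?_
          · have := hY0 v w
            positivity
          · rw [← mul_pow]
            refine pow_le_pow_left₀ ?_ ?_ _
            · have := hY0 v w
              positivity
            · change C * ((if w = v then δ * X else X) / 1 + 1) ≤ _
              split_ifs
              · nlinarith
              · nlinarith
      _ = (∏ w : InfinitePlace K, (if w = v then δ else 1) ^ w.mult) *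
            (2 * C * X) ^ Module.finrank ℚ K := by
          rw [Finset.prod_mul_distrib, Finset.prod_pow_eq_pow_sum, InfinitePlace.sum_mult_eq]
      _ = δ ^ v.mult * (2 * C * X) ^ Module.finrank ℚ K := by
          congr 1
          rw [Finset.prod_eq_single v]
          · rw [if_pos rfl]
          · intro w _ hw
            rw [if_neg hw, one_pow]
          · intro h
            exact absurd (Finset.mem_univ v) h
      _ ≤ δ * (2 * C * X) ^ Module.finrank ℚ K := by
          refine mul_le_mul_of_nonneg_right ?_ (by positivity)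
          exact pow_le_of_le_one hδ0.le hδ1 InfinitePlace.mult_ne_zero
  set U : Finset (Fin r → 𝓞 K) := Finset.univ.biUnion fun v : InfinitePlace K =>
    Fintype.piFinset fun _ : Fin r => (hS1 v).toFinset with hU
  have hsub : {u | u ∈ Bx K r X ∧ ∃ v : InfinitePlace K, ∀ i, v (u i : K) < δ * X} ⊆
      (U : Set (Fin r → 𝓞 K)) := by
    rintro u ⟨hu, v, hv⟩
    rw [Finset.mem_coe, hU, Finset.mem_biUnion]
    refine ⟨v, Finset.mem_univ _, ?_⟩
    rw [Fintype.mem_piFinset]
    intro i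
    rw [Set.Finite.mem_toFinset]
    refine ⟨Submodule.mem_top, fun w => ?_⟩
    change w (u i : K) ≤ if w = v then δ * X else X
    split_ifs with hw
    · rw [hw]
      exact (hv i).le
    · exact hu i w
  have hcard : ({u | u ∈ Bx K r X ∧ ∃ v : InfinitePlace K, ∀ i, v (u i : K) < δ * X} :
      Set (Fin r → 𝓞 K)).ncard ≤ U.card := by
    rw [← Set.ncard_coe_finset]
    exact Set.ncard_le_ncard hsub U.finite_toSet
  calc (({u | u ∈ Bx K r X ∧ ∃ v : InfinitePlace K, ∀ i, v (u i : K) < δ * X} :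
      Set (Fin r → 𝓞 K)).ncard : ℝ) ≤ (U.card : ℝ) := by exact_mod_cast hcard
    _ ≤ ∑ v : InfinitePlace K, ((S v).ncard : ℝ) ^ r := by
      have h : U.card ≤ ∑ v : InfinitePlace K, (S v).ncard ^ r := by
        refine Finset.card_biUnion_le.trans (Finset.sum_le_sum fun v _ => ?_)
        rw [Fintype.card_piFinset_const, Set.ncard_eq_toFinset_card _ (hS1 v)]
      exact_mod_cast h
    _ ≤ ∑ v : InfinitePlace K, δ * (M * X ^ (Module.finrank ℚ K * r)) := by
      refine Finset.sum_le_sum fun v _ => ?_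
      calc ((S v).ncard : ℝ) ^ r ≤ (δ * (2 * C * X) ^ Module.finrank ℚ K) ^ r :=
            pow_le_pow_left₀ (Nat.cast_nonneg _) (hS2 v) r
        _ = δ ^ r * (M * X ^ (Module.finrank ℚ K * r)) := by
            rw [hM, mul_pow, mul_pow (2 * C) X, mul_pow, ← pow_mul, ← pow_mul]
        _ ≤ δ * (M * X ^ (Module.finrank ℚ K * r)) := by
            refine mul_le_mul_of_nonneg_right ?_ (by positivity)
            exact pow_le_of_le_one hδ0.le hδ1 (by omega)
    _ = δ * (p * M) * X ^ (Module.finrank ℚ K * r) := by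
      rw [Finset.sum_const, Finset.card_univ, ← hpc, nsmul_eq_mul]
      ring
    _ ≤ ε * X ^ (Module.finrank ℚ K * r) :=
      mul_le_mul_of_nonneg_right hδ2 (by positivity)

end Pool.Agent.HTK
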