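import Mathlib
import Pool.Agent.HTK.Defs
import Pool.Agent.HTK.Bal
import Pool.Agent.HTK.Rep
import Pool.Agent.HTK.ConG
import Pool.Agent.HTK.Thin
import Pool.Agent.HTK.Mul

set_option autoImplicit false

/-!
# The number of points of bounded height over a number field
-/

namespace Pool.Agent.HTK

open NumberField

theorem Bx_mono {K : Type} [Field K] {r : ℕ} {X Y : ℝ} (h : X ≤ Y) : Bx K r X ⊆ Bx K r Y :=
  fun _ hu i v => (hu i v).trans h

theorem cont_pos {K : Type} [Field K] [NumberField K] {r : ℕ} {u : Fin r → 𝓞 K} (hu : u ≠ 0) :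
    0 < cont u := by
  rw [Nat.pos_iff_ne_zero]
  intro h
  unfold cont at h
  rw [Ideal.absNorm_eq_zero_iff, Ideal.span_eq_bot] at h
  exact hu (funext fun i => h _ ⟨i, rfl⟩)

theorem mulHeight_le {K : Type} [Field K] [NumberField K] {r : ℕ} {u : Fin r → 𝓞 K} (hu : u ≠ 0)
    (X : ℝ) (hX : 0 ≤ X) (h : u ∈ Bx K r X) :
    Height.mulHeight (fun i => (u i : K)) ≤ X ^ Module.finrank ℚ K := by
  have h1 := mulHeight_int u hu
  have h2 : (1 : ℝ) ≤ cont u := by exact_mod_cast cont_pos hu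
  have h3 : 0 < Height.mulHeight (fun i => (u i : K)) := Height.mulHeight_pos _
  calc Height.mulHeight (fun i => (u i : K)) ≤
      Height.mulHeight (fun i => (u i : K)) * cont u := le_mul_of_one_le_right h3.le h2
    _ = ∏ v : InfinitePlace K, (⨆ i, v (u i : K)) ^ v.mult := h1
    _ ≤ ∏ v : InfinitePlace K, X ^ v.mult := by
        refine Finset.prod_le_prod (fun v _ => pow_nonneg (Real.iSup_nonneg fun i => apply_nonneg _ _) _)
          fun v _ => pow_le_pow_left₀ (Real.iSup_nonneg fun i => apply_nonneg _ _)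
            (Real.iSup_le (fun i => h i v) hX) _
    _ = X ^ Module.finrank ℚ K := by
        rw [Finset.prod_pow_eq_pow_sum, InfinitePlace.sum_mult_eq]

/-- A representative of a point in a box. -/
theorem exists_rep_pt (K : Type) [Field K] [NumberField K] (r : ℕ) : ∃ C : ℝ, 0 < C ∧
    ∃ U : Projectivization K (Fin r → K) → Fin r → 𝓞 K, Function.Injective U ∧
      ∀ P, (∃ c : K, c ≠ 0 ∧ c • P.rep = fun i => (U P i : K)) ∧
        ∀ B : ℝ, P.mulHeight ≤ B → U P ∈ Bx K r (C * B ^ ((Module.finrank ℚ K : ℝ)⁻¹)) := by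
  obtain ⟨C, hC, h⟩ := exists_bal K r
  choose c U hc hU hb using fun P : Projectivization K (Fin r → K) => h P.rep P.rep_nonzero
  have hcU : ∀ P, c P • P.rep = fun i => (U P i : K) := fun P => funext fun i => hU P i
  refine ⟨C, hC, U, fun P Q hPQ => ?_, fun P => ⟨⟨c P, hc P, hcU P⟩, fun B hB => ?_⟩⟩
  · have h1 : c P • P.rep = c Q • Q.rep := by rw [hcU, hcU, hPQ]
    rw [← P.mk_rep, ← Q.mk_rep, Projectivization.mk_eq_mk_iff']
    refine ⟨(c P)⁻¹ * c Q, ?_⟩
    rw [mul_smul, ← h1, smul_smul, inv_mul_cancel₀ (hc P), one_smul]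
  · refine Bx_mono ?_ (hb P)
    have h2 : Height.mulHeight P.rep = P.mulHeight := by
      conv_rhs => rw [← P.mk_rep]
      rw [Projectivization.mulHeight_mk]
    rw [h2]
    refine mul_le_mul_of_nonneg_left (Real.rpow_le_rpow ?_ hB (by positivity)) hC.le
    exact P.mulHeight_pos.le

theorem pts_finite (K : Type) [Field K] [NumberField K] (r : ℕ) (B : ℝ) :
    {P : Projectivization K (Fin r → K) | P.mulHeight ≤ B}.Finite := by
  obtain ⟨C, hC, U, hU, h⟩ := exists_rep_pt K r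
  refine Set.Finite.of_finite_image (f := U) ?_ hU.injOn
  refine (bx_finite K r (C * B ^ ((Module.finrank ℚ K : ℝ)⁻¹))).subset ?_
  rintro _ ⟨P, hP, rfl⟩
  exact (h P).2 B hP

theorem low (K : Type) [Field K] [NumberField K] (r : ℕ) (hr : 2 ≤ r) : ∃ c B₀ : ℝ, 0 < c ∧
    ∀ B : ℝ, B₀ ≤ B →
      c * B ^ r ≤ ({P : Projectivization K (Fin r → K) | P.mulHeight ≤ B}.ncard : ℝ) := by
  classical
  obtain ⟨c₀, X₁, hc₀, htot⟩ := tot K r
  obtain ⟨G, X₂, hcon⟩ := con K r hr (c₀ / 4) (by positivity)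
  obtain ⟨δ, X₃, hδ, hthin⟩ := thin K r (by omega) (c₀ / 4) (by positivity)
  obtain ⟨A, hA⟩ := mul K r G δ hδ
  set n := Module.finrank ℚ K with hn
  have hn0 : 0 < n := Module.finrank_pos
  set M : ℝ := max (max X₁ X₂) (max X₃ 1) with hM
  have hM1 : 1 ≤ M := (le_max_right _ _).trans (le_max_right _ _)
  refine ⟨c₀ / (2 * (A + 1)), M ^ n, by positivity, fun B hB => ?_⟩
  have hB0 : 0 ≤ B := (pow_nonneg (zero_le_one.trans hM1) n).trans hB
  set X : ℝ := B ^ ((n : ℝ)⁻¹) with hX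
  have hX0 : 0 ≤ X := Real.rpow_nonneg hB0 _
  have hXn : X ^ n = B := by
    rw [hX, ← Real.rpow_natCast, ← Real.rpow_mul hB0, inv_mul_cancel₀ (by exact_mod_cast hn0.ne'),
      Real.rpow_one]
  have hMX : M ≤ X := by
    by_contra hlt
    push Not at hlt
    have := pow_lt_pow_left₀ hlt hX0 hn0.ne'
    rw [hXn] at this
    exact absurd hB (not_le.2 this)
  have hXpos : 0 < X := by linarith
  have hX1 : X₁ ≤ X := ((le_max_left _ _).trans (le_max_left _ _)).trans hMX
  have hX2 : X₂ ≤ X := ((le_max_right _ _).trans (le_max_left _ _)).trans hMX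
  have hX3 : X₃ ≤ X := ((le_max_left _ _).trans (le_max_right _ _)).trans hMX
  set Nice : Set (Fin r → 𝓞 K) := {u | u ∈ Bx K r X ∧ cont u ≤ G ∧
    ∀ v : InfinitePlace K, ∃ i, δ * X ≤ v (u i : K)} with hNice
  have hfin := bx_finite K r X
  have hNfin : Nice.Finite := hfin.subset fun u hu => hu.1
  have hsub : Bx K r X ⊆ Nice ∪ ({u | u ∈ Bx K r X ∧ G < cont u} ∪
      {u | u ∈ Bx K r X ∧ ∃ v : InfinitePlace K, ∀ i, v (u i : K) < δ * X}) := by
    intro u hu
    by_cases h1 : cont u ≤ G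
    · by_cases h2 : ∀ v : InfinitePlace K, ∃ i, δ * X ≤ v (u i : K)
      · exact Or.inl ⟨hu, h1, h2⟩
      · push Not at h2
        exact Or.inr (Or.inr ⟨hu, h2⟩)
    · exact Or.inr (Or.inl ⟨hu, not_le.1 h1⟩)
  have hcount : ((Bx K r X).ncard : ℝ) ≤ Nice.ncard +
      (({u | u ∈ Bx K r X ∧ G < cont u} : Set (Fin r → 𝓞 K)).ncard +
        ({u | u ∈ Bx K r X ∧ ∃ v : InfinitePlace K, ∀ i, v (u i : K) < δ * X} :
          Set (Fin r → 𝓞 K)).ncard) := by
    have h1 := Set.ncard_le_ncard hsub (hNfin.union ((hfin.subset fun u hu => hu.1).union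
      (hfin.subset fun u hu => hu.1)))
    have h2 := Set.ncard_union_le Nice ({u | u ∈ Bx K r X ∧ G < cont u} ∪
      {u | u ∈ Bx K r X ∧ ∃ v : InfinitePlace K, ∀ i, v (u i : K) < δ * X})
    have h3 := Set.ncard_union_le ({u | u ∈ Bx K r X ∧ G < cont u} : Set (Fin r → 𝓞 K))
      {u | u ∈ Bx K r X ∧ ∃ v : InfinitePlace K, ∀ i, v (u i : K) < δ * X}
    exact_mod_cast h1.trans (h2.trans (Nat.add_le_add_left h3 _))
  have hnice : c₀ / 2 * X ^ (n * r) ≤ (Nice.ncard : ℝ) := by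
    have h1 := htot X hX1
    have h2 := hcon X hX2
    have h3 := hthin X hX3
    linarith
  -- the map to the points
  have hfP := pts_finite K r B
  have hne : ∀ u ∈ Nice, (fun i => (u i : K)) ≠ 0 := by
    rintro u ⟨-, -, hu⟩ h0
    obtain ⟨v⟩ : Nonempty (InfinitePlace K) := inferInstance
    obtain ⟨i, hi⟩ := hu v
    have : (u i : K) = 0 := congrFun h0 i
    rw [this, map_zero] at hi
    have := mul_pos hδ hXpos
    linarith
  have hone : (fun _ => 1 : Fin r → K) ≠ 0 := by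
    intro h
    exact one_ne_zero (congrFun h ⟨0, by omega⟩)
  set f : (Fin r → 𝓞 K) → Projectivization K (Fin r → K) := fun u =>
    if h : (fun i => (u i : K)) ≠ 0 then Projectivization.mk K _ h
    else Projectivization.mk K _ hone with hf
  have hfmem : ∀ u ∈ hNfin.toFinset, f u ∈ hfP.toFinset := by
    intro u hu
    rw [Set.Finite.mem_toFinset] at hu ⊢
    have h1 := hne u hu
    change (f u).mulHeight ≤ B
    rw [hf]
    simp only [dif_pos h1]
    rw [Projectivization.mulHeight_mk, ← hXn]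
    exact mulHeight_le (fun h => h1 (by rw [h]; funext i; simp)) X hX0 hu.1
  have hfib : ∀ P ∈ hfP.toFinset, (hNfin.toFinset.filter fun u => f u = P).card ≤ A := by
    intro P _
    refine le_trans ?_ (hA X P.rep hXpos P.rep_nonzero)
    rw [← Set.ncard_coe_finset]
    refine Set.ncard_le_ncard ?_ (hfin.subset fun u hu => hu.1)
    intro u hu
    rw [Finset.coe_filter] at hu
    obtain ⟨hu1, hu2⟩ := hu
    rw [Set.Finite.mem_toFinset] at hu1
    refine ⟨hu1.1, hu1.2.1, hu1.2.2, ?_⟩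
    have h1 := hne u hu1
    rw [hf] at hu2
    simp only [dif_pos h1] at hu2
    rw [← P.mk_rep, Projectivization.mk_eq_mk_iff'] at hu2
    obtain ⟨a, ha⟩ := hu2
    exact ⟨a, fun i => (congrFun ha i).symm⟩
  have hcard := Finset.card_le_mul_card_image_of_maps_to hfmem A hfib
  rw [← Set.ncard_eq_toFinset_card _ hNfin, ← Set.ncard_eq_toFinset_card _ hfP] at hcard
  have hcard' : (Nice.ncard : ℝ) ≤ A * ({P : Projectivization K (Fin r → K) |
      P.mulHeight ≤ B}.ncard : ℝ) := by exact_mod_cast hcard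
  have hXr : X ^ (n * r) = B ^ r := by rw [pow_mul, hXn]
  rw [hXr] at hnice
  have hA1 : (0 : ℝ) < 2 * (A + 1) := by positivity
  rw [div_mul_eq_mul_div, div_le_iff₀ hA1]
  have hnn : (0 : ℝ) ≤ ({P : Projectivization K (Fin r → K) | P.mulHeight ≤ B}.ncard : ℝ) :=
    Nat.cast_nonneg _
  nlinarith

end Pool.Agent.HTK
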