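import Mathlib
import Pool.Agent.HTK.Den
import Pool.Agent.PNH.UniO
import Pool.Agent.PNH.ParL
import Pool.Agent.PNH.Hun
import Pool.Agent.PNH.AlR

set_option autoImplicit false

/-!
# All tuples of forms over a number field, ordered by height
-/

namespace Pool.Agent.HTK

open NumberField Filter
open Pool.Agent.PNH
open Pool.Agent.LIM (Null GF)

/-- The tuple of forms of degree `d` with the coefficients `s`; `e` numbers the coefficients. -/
noncomputable def frm {K : Type} [Field K] {N d r : ℕ}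
    (e : Fin r ≃ Fin (N + 1) × {α : Fin (N + 1) →₀ ℕ // α.degree = d}) (s : Fin r → K) : Tup N K :=
  fun i => ∑ t : Fin r, if (e t).1 = i then MvPolynomial.monomial (e t).2.1 (s t) else 0

/-- Multiplication of all forms by a constant. -/
noncomputable def sc {A : Type} [CommRing A] {N : ℕ} (c : A) (F : Tup N A) : Tup N A :=
  fun i => MvPolynomial.C c * F i

theorem frm_smul {K : Type} [Field K] {N d r : ℕ}
    (e : Fin r ≃ Fin (N + 1) × {α : Fin (N + 1) →₀ ℕ // α.degree = d}) (c : K) (s : Fin r → K) :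
    frm e (c • s) = sc c (frm e s) := by
  funext i
  unfold frm sc
  rw [Finset.mul_sum]
  refine Finset.sum_congr rfl fun t _ => ?_
  split_ifs
  · rw [MvPolynomial.C_mul_monomial]
    rfl
  · rw [mul_zero]

section scale

variable {N d : ℕ} {A : Type} [CommRing A]

theorem app_sc (c : A) (F : Tup N A) (x : Fin (N + 1) → A) : app (sc c F) x = c • app F x := by
  funext i
  unfold app sc
  rw [map_mul, MvPolynomial.eval_C]
  rfl

theorem mp_sc {B : Type} [CommRing B] (f : A →+* B) (c : A) (F : Tup N A) :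
    mp f (sc c F) = sc (f c) (mp f F) := by
  funext i
  unfold mp sc
  rw [map_mul, MvPolynomial.map_C]

theorem sc_sc (c c' : A) (F : Tup N A) : sc c (sc c' F) = sc (c * c') F := by
  funext i
  unfold sc
  rw [map_mul, mul_assoc]

theorem sc_one (F : Tup N A) : sc 1 F = F := by
  funext i
  unfold sc
  rw [map_one, one_mul]

end scale

section field

variable {N d : ℕ} {k : Type} [Field k]

theorem iter_sc (F : Tup N k) (hF : ∀ i, (F i).IsHomogeneous d) (c : k) (hc : c ≠ 0) (n : ℕ)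
    (x : Fin (N + 1) → k) : ∃ a : k, a ≠ 0 ∧ (app (sc c F))^[n] x = a • (app F)^[n] x := by
  induction n with
  | zero => exact ⟨1, one_ne_zero, (one_smul _ _).symm⟩
  | succ n ih =>
    obtain ⟨a, ha, h⟩ := ih
    refine ⟨c * a ^ d, mul_ne_zero hc (pow_ne_zero _ ha), ?_⟩
    rw [Function.iterate_succ_apply', Function.iterate_succ_apply', h, app_sc, app_smul d F hF,
      smul_smul]

theorem par_smul_iff {x y : Fin (N + 1) → k} {a b : k} (ha : a ≠ 0) (hb : b ≠ 0)
    (h : Par (a • x) (b • y)) : Par x y :=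
  ((h.of_smul_left ha).symm.of_smul_left hb).symm

theorem hom_sc (F : Tup N k) (hF : ∀ i, (F i).IsHomogeneous d) (c : k) :
    ∀ i, (sc c F i).IsHomogeneous d := fun i => (hF i).C_mul c

theorem isMor_sc (F : Tup N k) (c : k) (hc : c ≠ 0) (h : IsMor d k F) : IsMor d k (sc c F) := by
  refine ⟨hom_sc F h.1 c, fun x hx => h.2 x ?_⟩
  rw [mp_sc, app_sc] at hx
  exact (smul_eq_zero.1 hx).resolve_left
    ((map_ne_zero_iff _ (algebraMap k (AlgebraicClosure k)).injective).2 hc)

theorem pre_sc (F : Tup N k) (hF : ∀ i, (F i).IsHomogeneous d) (D : ℕ) (c : k) (hc : c ≠ 0) :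
    Pre k D (sc c F) ⊆ Pre k D F := by
  rintro x ⟨h1, h2, a, b, hab, h3⟩
  refine ⟨h1, h2, a, b, hab, ?_⟩
  have hc' : algebraMap k (AlgebraicClosure k) c ≠ 0 :=
    (map_ne_zero_iff _ (algebraMap k (AlgebraicClosure k)).injective).2 hc
  rw [mp_sc] at h3
  obtain ⟨u, hu, h4⟩ := iter_sc (mp (algebraMap k (AlgebraicClosure k)) F) (hom_mp d _ F hF) _ hc'
    a x
  obtain ⟨w, hw, h5⟩ := iter_sc (mp (algebraMap k (AlgebraicClosure k)) F) (hom_mp d _ F hF) _ hc'
    b x
  rw [h4, h5] at h3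
  exact par_smul_iff hu hw h3

/-- The tuple is a morphism without preperiodic points of degree less than `M`. -/
def Good (d M : ℕ) (k : Type) [Field k] {N : ℕ} (F : Tup N k) : Prop :=
  IsMor d k F ∧ ∀ D : ℕ, D < M → Pre k D F = ∅

theorem good_sc (M : ℕ) (F : Tup N k) (c : k) (hc : c ≠ 0) (h : Good d M k (sc c F)) :
    Good d M k F := by
  have h1 : sc c⁻¹ (sc c F) = F := by rw [sc_sc, inv_mul_cancel₀ hc, sc_one]
  have h2 : IsMor d k F := h1 ▸ isMor_sc (sc c F) c⁻¹ (inv_ne_zero hc) h.1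
  refine ⟨h2, fun D hD => ?_⟩
  have h3 := pre_sc (sc c F) h.1.1 D c⁻¹ (inv_ne_zero hc)
  rw [h1, h.2 D hD] at h3
  exact Set.subset_empty_iff.1 h3

end field

theorem frm_eq {K : Type} [Field K] {N d r m R : ℕ} (ω : Fin m → 𝓞 K)
    (e : Fin r ≃ Fin (N + 1) × {α : Fin (N + 1) →₀ ℕ // α.degree = d})
    (e' : Fin R ≃ Fin r × Fin m) (z : Fin R → ℤ) :
    frm e (fun i => ((∑ j : Fin m, z (e'.symm (i, j)) • ω j : 𝓞 K) : K)) =
      mem z (univO ω (e'.trans (e.prodCongr (Equiv.refl _)))) := by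
  funext i
  unfold frm mem univO mp
  rw [map_sum, ← Equiv.sum_comp e'.symm, Fintype.sum_prod_type]
  refine Finset.sum_congr rfl fun t _ => ?_
  simp only [Equiv.trans_apply, Equiv.apply_symm_apply, Equiv.prodCongr_apply, Prod.map,
    Equiv.refl_apply]
  split_ifs
  · simp only [MvPolynomial.map_monomial]
    rw [← map_sum]
    congr 1
    change algebraMap (𝓞 K) K (∑ j : Fin m, z (e'.symm (t, j)) • ω j) = _
    rw [map_sum]
    refine Finset.sum_congr rfl fun j _ => ?_
    simp [Pool.Agent.FamK.ev, mul_comm]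
  · simp

/-- 100 per cent of all tuples of forms of degree `d` over `K`, ordered by height, are good. -/
theorem forms_height (K : Type) [Field K] [NumberField K] {N d r : ℕ} (hN : 1 ≤ N) (hd : 2 ≤ d)
    (M : ℕ) (hM : M ≤ ∑ l ∈ Finset.range (N + 1), d ^ l) (h12 : N = 1 → d = 2 → M ≤ 2)
    (hM1 : 1 ≤ M)
    (e : Fin r ≃ Fin (N + 1) × {α : Fin (N + 1) →₀ ℕ // α.degree = d}) (ε : ℝ) (hε : 0 < ε) :
    ∃ B₀ : ℝ, ∀ B : ℝ, B₀ ≤ B →
      ({P : Projectivization K (Fin r → K) | P.mulHeight ≤ B ∧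
        ¬ Good d M K (frm e P.rep)}.ncard : ℝ) ≤
        ε * ({P : Projectivization K (Fin r → K) | P.mulHeight ≤ B}.ncard : ℝ) := by
  classical
  have hr : 2 ≤ r := by
    have h1 : Function.Injective (fun i : Fin (N + 1) =>
        e.symm (i, ⟨Finsupp.single 0 d, Finsupp.degree_single _ _⟩)) := by
      intro i j hij
      have := e.symm.injective hij
      exact (Prod.ext_iff.1 this).1
    have := Fintype.card_le_of_injective _ h1
    rw [Fintype.card_fin, Fintype.card_fin] at this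
    omega
  set m : ℕ := Fintype.card (Module.Free.ChooseBasisIndex ℤ (𝓞 K)) with hm
  set ω : Module.Basis (Fin m) ℤ (𝓞 K) :=
    (RingOfIntegers.basis K).reindex (Fintype.equivFin _) with hω
  set e' : Fin (r * m) ≃ Fin r × Fin m := finProdFinEquiv.symm with he'
  have hm0 : 0 < m := by
    have : 0 < Module.finrank ℤ (𝓞 K) := by
      rw [RingOfIntegers.rank]
      exact Module.finrank_pos
    rwa [Module.finrank_eq_card_basis ω, Fintype.card_fin] at this
  have hω0 : ∃ j, ω j ≠ 0 := ⟨⟨0, hm0⟩, ω.ne_zero _⟩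
  refine den K r hr ω e' (fun s => ¬ Good d M K (frm e s)) ?_ ?_ ε hε
  · intro c t hc hbad hgood
    rw [frm_smul] at hgood
    exact hbad (good_sc M _ c hc hgood)
  · have hmor := univO_mor (K := K) (fun j => ω j) hω0 (e'.trans (e.prodCongr (Equiv.refl _)))
    obtain ⟨-, h2⟩ := hundred hd (M - 1) _ hmor
    have h3 := univO_nopreR (K := K) (fun j => ω j) hω0 hN hd (D := M - 1) (by omega)
      (fun h h' => by have := h12 h h'; omega) (e'.trans (e.prodCongr (Equiv.refl _)))
    refine Pool.Agent.LIM.Null.mono (fun z hz => ?_) h2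
    intro hgood
    refine hz ?_
    rw [frm_eq]
    obtain ⟨h4, h5, h6⟩ := hgood
    refine ⟨h4, fun D' hD' => ?_⟩
    rw [h3, Set.ncard_empty, Set.ncard_eq_zero h5] at h6
    refine Set.subset_empty_iff.1 (h6 ▸ ?_)
    rintro x ⟨hx1, ⟨θ, hθ, hxθ⟩, hx3⟩
    exact ⟨hx1, ⟨θ, by omega, hxθ⟩, hx3⟩

end Pool.Agent.HTK
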