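import Mathlib
import Pool.Agent.HTK.Defs
import Pool.Agent.HTK.Rep
import Pool.Agent.HTK.Low
import Pool.Agent.LIM.Defs

set_option autoImplicit false

/-!
# Sums over the points of bounded height
-/

namespace Pool.Agent.HTK

open NumberField
open Pool.Agent.FAM (Cube)

theorem den_sum (K : Type) [Field K] [NumberField K] (r : ℕ) (hr : 2 ≤ r) {m R : ℕ}
    (ω : Module.Basis (Fin m) ℤ (𝓞 K)) (e : Fin R ≃ Fin r × Fin m) (f : (Fin r → K) → ℝ)
    (hf : ∀ t, 0 ≤ f t) (hsc : ∀ (c : K) (t : Fin r → K), c ≠ 0 → f (c • t) = f t) (C : ℝ)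
    (hC : ∀ H : ℕ, 1 ≤ H → ∑ z ∈ Cube R H, f (fun i =>
      ((∑ j : Fin m, z (e.symm (i, j)) • ω j : 𝓞 K) : K)) ≤ C * (2 * (H : ℝ) + 1) ^ R) :
    ∃ C' B₀ : ℝ, 0 ≤ C' ∧ ∀ B : ℝ, B₀ ≤ B →
      ∑ P ∈ (pts_finite K r B).toFinset, f P.rep ≤
        C' * ({P : Projectivization K (Fin r → K) | P.mulHeight ≤ B}.ncard : ℝ) := by
  classical
  obtain ⟨C₂, hC₂, U, hU, hrep⟩ := exists_rep_pt K r
  obtain ⟨C₁, hC₁, hco⟩ := exists_rep K ω
  obtain ⟨c, B₁, hc, hlow⟩ := low K r hr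
  set n := Module.finrank ℚ K with hn
  have hn0 : 0 < n := Module.finrank_pos
  have hnR : (n : ℝ) ≠ 0 := by exact_mod_cast hn0.ne'
  have hm : m = n := by
    rw [hn, ← RingOfIntegers.rank K, Module.finrank_eq_card_basis ω, Fintype.card_fin]
  have hR : R = r * n := by
    have := Fintype.card_congr e
    rw [Fintype.card_fin, Fintype.card_prod, Fintype.card_fin, Fintype.card_fin, hm] at this
    exact this
  have hC0 : 0 ≤ C := by
    have h1 := hC 1 le_rfl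
    have h2 : 0 ≤ ∑ z ∈ Cube R 1, f (fun i =>
      ((∑ j : Fin m, z (e.symm (i, j)) • ω j : 𝓞 K) : K)) := Finset.sum_nonneg fun z _ => hf _
    have h3 : (0 : ℝ) < (2 * ((1 : ℕ) : ℝ) + 1) ^ R := by positivity
    by_contra hneg
    push Not at hneg
    have := mul_neg_of_neg_of_pos hneg h3
    linarith
  set W : ℝ := 1 / (C₁ * C₂) with hW
  have hCC : 0 < C₁ * C₂ := mul_pos hC₁ hC₂
  have hW0 : 0 < W := div_pos one_pos hCC
  refine ⟨C * (5 * (C₁ * C₂)) ^ R / c, max B₁ (W ^ n), by positivity, fun B hB => ?_⟩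
  have hB1 : B₁ ≤ B := (le_max_left _ _).trans hB
  have hB2 : W ^ n ≤ B := (le_max_right _ _).trans hB
  have hB0 : 0 ≤ B := (pow_nonneg hW0.le n).trans hB2
  set T : ℝ := B ^ ((n : ℝ)⁻¹) with hT
  have hT0 : 0 ≤ T := Real.rpow_nonneg hB0 _
  have hTn : T ^ n = B := by
    rw [hT, ← Real.rpow_natCast, ← Real.rpow_mul hB0, inv_mul_cancel₀ hnR, Real.rpow_one]
  have hWT : W ≤ T := by
    by_contra hlt
    push Not at hlt
    have := pow_lt_pow_left₀ hlt hT0 hn0.ne'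
    rw [hTn] at this
    exact absurd hB2 (not_le.2 this)
  set Y : ℝ := C₁ * (C₂ * T) with hY
  have hY1 : 1 ≤ Y := by
    have h1 : C₁ * C₂ * W ≤ C₁ * C₂ * T := mul_le_mul_of_nonneg_left hWT hCC.le
    rw [hW, mul_div_cancel₀ _ hCC.ne'] at h1
    rw [hY, ← mul_assoc]
    exact h1
  set H : ℕ := ⌈Y⌉₊ with hH
  have hHY : Y ≤ H := Nat.le_ceil Y
  have hHY' : (H : ℝ) ≤ Y + 1 := (Nat.ceil_lt_add_one (by linarith)).le
  have hH1 : 1 ≤ H := by exact_mod_cast hY1.trans hHY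
  set Z : Projectivization K (Fin r → K) → Fin R → ℤ :=
    fun P t => ω.repr (U P (e t).1) (e t).2 with hZ
  have hsum : ∀ P i, (∑ j : Fin m, Z P (e.symm (i, j)) • ω j : 𝓞 K) = U P i := by
    intro P i
    simp only [hZ, Equiv.apply_symm_apply]
    exact ω.sum_repr (U P i)
  have hZinj : Function.Injective Z := by
    intro P Q hPQ
    apply hU
    funext i
    rw [← hsum P i, ← hsum Q i, hPQ]
  have hfZ : ∀ P, f P.rep = f (fun i =>
      ((∑ j : Fin m, Z P (e.symm (i, j)) • ω j : 𝓞 K) : K)) := by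
    intro P
    simp only [hsum]
    obtain ⟨a, ha, ha'⟩ := (hrep P).1
    rw [← ha', hsc a _ ha]
  have hle : ∑ P ∈ (pts_finite K r B).toFinset, f P.rep ≤
      ∑ z ∈ Cube R H, f (fun i => ((∑ j : Fin m, z (e.symm (i, j)) • ω j : 𝓞 K) : K)) := by
    rw [Finset.sum_congr rfl fun P _ => hfZ P,
      ← Finset.sum_image (f := fun z : Fin R → ℤ =>
        f (fun i => ((∑ j : Fin m, z (e.symm (i, j)) • ω j : 𝓞 K) : K)))
        (s := (pts_finite K r B).toFinset) (g := Z) hZinj.injOn]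
    refine Finset.sum_le_sum_of_subset_of_nonneg ?_ fun z _ _ => hf _
    intro z hz
    rw [Finset.mem_image] at hz
    obtain ⟨P, hP, rfl⟩ := hz
    rw [Set.Finite.mem_toFinset] at hP
    rw [Pool.Agent.FAM.mem_Cube]
    intro t
    have h1 := hco (C₂ * T) (U P (e t).1) (fun v => (hrep P).2 B hP (e t).1 v) (e t).2
    have h2 : |((Z P t : ℤ) : ℝ)| ≤ (H : ℝ) := h1.trans hHY
    have h3 : |Z P t| ≤ (H : ℤ) := by exact_mod_cast h2
    exact h3
  have hpow : (2 * (H : ℝ) + 1) ^ R ≤ (5 * (C₁ * C₂)) ^ R * B ^ r := by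
    have h1 : 2 * (H : ℝ) + 1 ≤ 5 * (C₁ * C₂) * T := by
      have : 5 * (C₁ * C₂) * T = 5 * Y := by rw [hY]; ring
      rw [this]
      linarith
    calc (2 * (H : ℝ) + 1) ^ R ≤ (5 * (C₁ * C₂) * T) ^ R :=
          pow_le_pow_left₀ (by positivity) h1 R
      _ = (5 * (C₁ * C₂)) ^ R * B ^ r := by
          rw [mul_pow, ← hTn, ← pow_mul, hR, mul_comm r n]
  have hl := hlow B hB1
  calc ∑ P ∈ (pts_finite K r B).toFinset, f P.rep
      ≤ ∑ z ∈ Cube R H, f (fun i =>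
        ((∑ j : Fin m, z (e.symm (i, j)) • ω j : 𝓞 K) : K)) := hle
    _ ≤ C * (2 * (H : ℝ) + 1) ^ R := hC H hH1
    _ ≤ C * ((5 * (C₁ * C₂)) ^ R * B ^ r) := mul_le_mul_of_nonneg_left hpow hC0
    _ = C * (5 * (C₁ * C₂)) ^ R / c * (c * B ^ r) := by
        field_simp
    _ ≤ C * (5 * (C₁ * C₂)) ^ R / c *
        ({P : Projectivization K (Fin r → K) | P.mulHeight ≤ B}.ncard : ℝ) :=
        mul_le_mul_of_nonneg_left hl (by positivity)

end Pool.Agent.HTK
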