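import Mathlib

set_option autoImplicit false

/-!
# Means over the points of bounded height
-/

namespace Pool.Agent.HTK

open Filter

/-- Tails of the weight `exp (m ^ (1/4))`. -/
theorem exp_le (δ : ℝ) (hδ : 0 < δ) : ∃ A : ℝ, 0 ≤ A ∧ ∀ m : ℕ,
    Real.exp ((m : ℝ) ^ ((1 : ℝ) / 4)) ≤ A + δ * Real.exp ((m : ℝ) ^ ((1 : ℝ) / 3)) := by
  obtain ⟨M, hM⟩ : ∃ M : ℕ, ∀ m : ℕ, M ≤ m →
      Real.exp ((m : ℝ) ^ ((1 : ℝ) / 4)) ≤ δ * Real.exp ((m : ℝ) ^ ((1 : ℝ) / 3)) := by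
    have h1 : Tendsto (fun m : ℕ => ((m : ℝ) ^ ((1 : ℝ) / 12) - 1) * (m : ℝ) ^ ((1 : ℝ) / 4))
        atTop atTop := by
      have h2 : Tendsto (fun m : ℕ => (m : ℝ) ^ ((1 : ℝ) / 12)) atTop atTop :=
        (tendsto_rpow_atTop (by norm_num)).comp tendsto_natCast_atTop_atTop
      have h3 : Tendsto (fun m : ℕ => (m : ℝ) ^ ((1 : ℝ) / 4)) atTop atTop :=
        (tendsto_rpow_atTop (by norm_num)).comp tendsto_natCast_atTop_atTop
      exact (tendsto_atTop_add_const_right _ (-1) h2).atTop_mul_atTop₀ h3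
    obtain ⟨M, hM⟩ := (tendsto_atTop.1 h1 (Real.log δ⁻¹)).exists_forall_of_atTop
    refine ⟨M, fun m hm => ?_⟩
    have h4 := hM m hm
    have h5 : (m : ℝ) ^ ((1 : ℝ) / 3) = (m : ℝ) ^ ((1 : ℝ) / 12) * (m : ℝ) ^ ((1 : ℝ) / 4) := by
      rw [← Real.rpow_add_of_nonneg (Nat.cast_nonneg m) (by norm_num) (by norm_num)]
      norm_num
    have h6 : Real.log δ⁻¹ + (m : ℝ) ^ ((1 : ℝ) / 4) ≤ (m : ℝ) ^ ((1 : ℝ) / 3) := by
      rw [h5]
      linarith
    have h7 := Real.exp_le_exp.2 h6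
    rw [Real.exp_add, Real.exp_log (inv_pos.2 hδ), inv_mul_le_iff₀ hδ] at h7
    exact h7
  refine ⟨Real.exp ((M : ℝ) ^ ((1 : ℝ) / 4)), (Real.exp_pos _).le, fun m => ?_⟩
  have hp : 0 ≤ δ * Real.exp ((m : ℝ) ^ ((1 : ℝ) / 3)) := (mul_pos hδ (Real.exp_pos _)).le
  rcases le_total M m with h | h
  · have := hM m h
    have h0 := (Real.exp_pos ((M : ℝ) ^ ((1 : ℝ) / 4))).le
    linarith
  · have h1 : Real.exp ((m : ℝ) ^ ((1 : ℝ) / 4)) ≤ Real.exp ((M : ℝ) ^ ((1 : ℝ) / 4)) :=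
      Real.exp_le_exp.2 (Real.rpow_le_rpow (Nat.cast_nonneg _) (Nat.cast_le.2 h) (by norm_num))
    linarith

section

variable {S : Type} (h : S → ℝ) (hfin : ∀ B : ℝ, {x | h x ≤ B}.Finite) (x₀ : S)

include hfin in
theorem ncard_pos {B : ℝ} (hB : h x₀ ≤ B) : (0 : ℝ) < ({x | h x ≤ B}.ncard : ℝ) := by
  exact_mod_cast (Set.ncard_pos (hfin B)).2 ⟨x₀, hB⟩

include hfin x₀ in
/-- One hundred per cent, from the density of the exceptions. -/
theorem hundred_of (Q : S → Prop)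
    (hb : ∀ ε : ℝ, 0 < ε → ∃ B₀ : ℝ, ∀ B : ℝ, B₀ ≤ B →
      ({x | h x ≤ B ∧ ¬ Q x}.ncard : ℝ) ≤ ε * ({x | h x ≤ B}.ncard : ℝ)) :
    Tendsto (fun B : ℝ => ({x | h x ≤ B ∧ Q x}.ncard : ℝ) / {x | h x ≤ B}.ncard) atTop
      (nhds 1) := by
  rw [Metric.tendsto_atTop]
  intro ε hε
  obtain ⟨B₀, hB₀⟩ := hb (ε / 2) (by positivity)
  refine ⟨max B₀ (h x₀), fun B hB => ?_⟩
  have h1 := hB₀ B ((le_max_left _ _).trans hB)
  have ht := ncard_pos h hfin x₀ ((le_max_right _ _).trans hB)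
  have h2 : {x | h x ≤ B ∧ Q x}.ncard + {x | h x ≤ B ∧ ¬ Q x}.ncard = {x | h x ≤ B}.ncard := by
    rw [← Set.ncard_union_eq ?_ ((hfin B).subset fun x hx => hx.1)
      ((hfin B).subset fun x hx => hx.1)]
    · congr 1
      ext x
      simp only [Set.mem_union, Set.mem_ofPred_eq]
      tauto
    · rw [Set.disjoint_left]
      intro x hx hx'
      exact hx'.2 hx.2
  have h3 : (({x | h x ≤ B ∧ Q x}.ncard : ℕ) : ℝ) =
      ({x | h x ≤ B}.ncard : ℝ) - ({x | h x ≤ B ∧ ¬ Q x}.ncard : ℝ) := by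
    rw [← h2]
    push_cast
    ring
  have h4 : (({x | h x ≤ B}.ncard : ℝ) - ({x | h x ≤ B ∧ ¬ Q x}.ncard : ℝ)) /
      ({x | h x ≤ B}.ncard : ℝ) - 1 =
      -(({x | h x ≤ B ∧ ¬ Q x}.ncard : ℝ) / ({x | h x ≤ B}.ncard : ℝ)) := by
    rw [sub_div, div_self ht.ne']
    ring
  rw [Real.dist_eq, h3, h4, abs_neg, abs_of_nonneg (by positivity), div_lt_iff₀ ht]
  have h5 : 0 < ε * ({x | h x ≤ B}.ncard : ℝ) := mul_pos hε ht
  linarith

open Classical in
include hfin x₀ in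
/-- The means of `φ(n(x))` converge, if `n(x) = G` for 100 per cent of the `x` and the means of
`exp (n(x) ^ (1/3))` are bounded. -/
theorem mean_of (good : S → Prop) (n : S → ℕ) (G : ℕ)
    (hb : ∀ ε : ℝ, 0 < ε → ∃ B₀ : ℝ, ∀ B : ℝ, B₀ ≤ B →
      ({x | h x ≤ B ∧ ¬ (good x ∧ n x = G)}.ncard : ℝ) ≤ ε * ({x | h x ≤ B}.ncard : ℝ))
    (C B₁ : ℝ) (hC : ∀ B : ℝ, B₁ ≤ B → ∑ᶠ x ∈ {x | h x ≤ B},
      (if good x then Real.exp ((n x : ℝ) ^ ((1 : ℝ) / 3)) else 0) ≤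
        C * ({x | h x ≤ B}.ncard : ℝ))
    (φ : ℕ → ℝ) (hφ : ∀ m : ℕ, |φ m| ≤ Real.exp ((m : ℝ) ^ ((1 : ℝ) / 4))) :
    Tendsto (fun B : ℝ => (∑ᶠ x ∈ {x | h x ≤ B}, (if good x then φ (n x) else 0)) /
      ({x | h x ≤ B}.ncard : ℝ)) atTop (nhds (φ G)) := by
  rw [Metric.tendsto_atTop]
  intro ε hε
  have hC0 : (0 : ℝ) < 4 * (|C| + 1) := by positivity
  obtain ⟨A, hA0, hA⟩ := exp_le (ε / (4 * (|C| + 1))) (by positivity)
  have hAG : (0 : ℝ) < 4 * (A + |φ G| + 1) := by positivity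
  obtain ⟨B₀, hB₀⟩ := hb (ε / (4 * (A + |φ G| + 1))) (by positivity)
  refine ⟨max (max B₀ B₁) (h x₀), fun B hB => ?_⟩
  have h1 := hB₀ B (((le_max_left _ _).trans (le_max_left _ _)).trans hB)
  have h2 := hC B (((le_max_right _ _).trans (le_max_left _ _)).trans hB)
  have ht := ncard_pos h hfin x₀ ((le_max_right _ _).trans hB)
  set F := (hfin B).toFinset with hF
  have hcard : ({x | h x ≤ B}.ncard : ℝ) = (F.card : ℝ) := by
    rw [Set.ncard_eq_toFinset_card _ (hfin B)]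
  have hbad : ({x | h x ≤ B ∧ ¬ (good x ∧ n x = G)}.ncard : ℝ) =
      ((F.filter fun x => ¬ (good x ∧ n x = G)).card : ℝ) := by
    rw [← Set.ncard_coe_finset]
    congr 2
    ext x
    rw [Finset.mem_coe, Finset.mem_filter, hF, Set.Finite.mem_toFinset]
    rfl
  rw [finsum_mem_eq_finite_toFinset_sum _ (hfin B), ← hF] at h2
  rw [finsum_mem_eq_finite_toFinset_sum _ (hfin B), ← hF]
  rw [hcard] at h1 h2 ht ⊢
  rw [hbad] at h1
  -- the difference
  have h3 : |(∑ x ∈ F, (if good x then φ (n x) else 0)) - φ G * (F.card : ℝ)| ≤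
      ε / (4 * (|C| + 1)) *
        (∑ x ∈ F, (if good x then Real.exp ((n x : ℝ) ^ ((1 : ℝ) / 3)) else 0)) +
      (A + |φ G|) * ((F.filter fun x => ¬ (good x ∧ n x = G)).card : ℝ) := by
    have h4 : (∑ x ∈ F, (if good x then φ (n x) else 0)) - φ G * (F.card : ℝ) =
        ∑ x ∈ F, ((if good x then φ (n x) else 0) - φ G) := by
      rw [Finset.sum_sub_distrib, Finset.sum_const, nsmul_eq_mul]
      ring
    have h5 : (A + |φ G|) * ((F.filter fun x => ¬ (good x ∧ n x = G)).card : ℝ) =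
        ∑ x ∈ F, if ¬ (good x ∧ n x = G) then A + |φ G| else 0 := by
      rw [← Finset.sum_filter, Finset.sum_const, nsmul_eq_mul]
      ring
    rw [h4, h5, Finset.mul_sum, ← Finset.sum_add_distrib]
    refine (Finset.abs_sum_le_sum_abs _ _).trans (Finset.sum_le_sum fun x _ => ?_)
    have hδ : 0 ≤ ε / (4 * (|C| + 1)) := by positivity
    by_cases hg : good x
    · by_cases hn : n x = G
      · rw [if_pos hg, if_pos hg, if_neg (not_not.2 ⟨hg, hn⟩), hn, sub_self, abs_zero]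
        have := (Real.exp_pos ((G : ℝ) ^ ((1 : ℝ) / 3))).le
        have := mul_nonneg hδ this
        linarith
      · rw [if_pos hg, if_pos hg, if_pos fun hh => hn hh.2]
        have h6 := abs_sub (φ (n x)) (φ G)
        have h7 := hφ (n x)
        have h8 := hA (n x)
        linarith
    · rw [if_neg hg, if_neg hg, if_pos fun hh => hg hh.1, zero_sub, abs_neg]
      linarith
  have h4 : |(∑ x ∈ F, (if good x then φ (n x) else 0)) - φ G * (F.card : ℝ)| ≤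
      ε / 2 * (F.card : ℝ) := by
    refine h3.trans ?_
    have h5 : ε / (4 * (|C| + 1)) *
        (∑ x ∈ F, (if good x then Real.exp ((n x : ℝ) ^ ((1 : ℝ) / 3)) else 0)) ≤
        ε / 4 * (F.card : ℝ) := by
      calc ε / (4 * (|C| + 1)) *
          (∑ x ∈ F, (if good x then Real.exp ((n x : ℝ) ^ ((1 : ℝ) / 3)) else 0)) ≤
          ε / (4 * (|C| + 1)) * (C * (F.card : ℝ)) :=
            mul_le_mul_of_nonneg_left h2 (by positivity)
        _ ≤ ε / (4 * (|C| + 1)) * ((|C| + 1) * (F.card : ℝ)) := by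
            refine mul_le_mul_of_nonneg_left (mul_le_mul_of_nonneg_right ?_ ht.le) (by positivity)
            have := le_abs_self C
            linarith
        _ = ε / 4 * (F.card : ℝ) := by
            have : |C| + 1 ≠ 0 := by positivity
            field_simp
    have h6 : (A + |φ G|) * ((F.filter fun x => ¬ (good x ∧ n x = G)).card : ℝ) ≤
        ε / 4 * (F.card : ℝ) := by
      calc (A + |φ G|) * ((F.filter fun x => ¬ (good x ∧ n x = G)).card : ℝ) ≤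
          (A + |φ G| + 1) * (ε / (4 * (A + |φ G| + 1)) * (F.card : ℝ)) := by
            refine mul_le_mul ?_ h1 (Nat.cast_nonneg _) (by positivity)
            linarith
        _ = ε / 4 * (F.card : ℝ) := by
            have : A + |φ G| + 1 ≠ 0 := by positivity
            field_simp
    linarith
  have h5 : (∑ x ∈ F, (if good x then φ (n x) else 0)) / (F.card : ℝ) - φ G =
      ((∑ x ∈ F, (if good x then φ (n x) else 0)) - φ G * (F.card : ℝ)) / (F.card : ℝ) := by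
    rw [sub_div, mul_div_assoc, div_self ht.ne', mul_one]
  rw [Real.dist_eq, h5, abs_div, abs_of_pos ht, div_lt_iff₀ ht]
  refine h4.trans_lt ?_
  have := mul_pos hε ht
  linarith

end

end Pool.Agent.HTK
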