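import Mathlib
import Pool.Agent.HTK.Den
import Pool.Agent.HTK.Frm
import Pool.Agent.PNB.FxH

set_option autoImplicit false

/-!
# The least degree of a preperiodic point for 100 per cent of all morphisms over a number field,
ordered by height
-/

namespace Pool.Agent.HTK

open NumberField Filter
open Pool.Agent.PNH
open Pool.Agent.LIM (Null GF)

/-- The tuple is a morphism, and it has preperiodic points of degree at most `D` if and only if
`D ≥ 1 + d + … + d ^ N` (if and only if `D ≥ 2` for `N = 1`, `d = 2`). -/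
def Exact (d : ℕ) (k : Type) [Field k] {N : ℕ} (F : Tup N k) : Prop :=
  IsMor d k F ∧ ∀ D : ℕ, (Pre k D F).Nonempty ↔
    (if N = 1 ∧ d = 2 then 2 else ∑ i ∈ Finset.range (N + 1), d ^ i) ≤ D

theorem exact_sc {N d : ℕ} {k : Type} [Field k] (F : Tup N k) (c : k) (hc : c ≠ 0)
    (h : Exact d k (sc c F)) : Exact d k F := by
  have h1 : sc c⁻¹ (sc c F) = F := by rw [sc_sc, inv_mul_cancel₀ hc, sc_one]
  have h2 : IsMor d k F := h1 ▸ isMor_sc (sc c F) c⁻¹ (inv_ne_zero hc) h.1
  refine ⟨h2, fun D => ?_⟩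
  have h3 : Pre k D F ⊆ Pre k D (sc c F) := by
    have h3 := pre_sc (sc c F) h.1.1 D c⁻¹ (inv_ne_zero hc)
    rwa [h1] at h3
  rw [← h.2 D]
  exact ⟨fun hne => hne.mono h3, fun hne => hne.mono (pre_sc F h2.1 _ c hc)⟩

/-- For 100 per cent of all tuples of forms of degree `d` over `K`, ordered by height, the least
degree of a preperiodic point is `1 + d + … + d ^ N`. -/
theorem forms_exact (K : Type) [Field K] [NumberField K] {N d r : ℕ} (hN : 1 ≤ N) (hd : 2 ≤ d)
    (e : Fin r ≃ Fin (N + 1) × {α : Fin (N + 1) →₀ ℕ // α.degree = d}) (ε : ℝ) (hε : 0 < ε) :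
    ∃ B₀ : ℝ, ∀ B : ℝ, B₀ ≤ B →
      ({P : Projectivization K (Fin r → K) | P.mulHeight ≤ B ∧
        ¬ Exact d K (frm e P.rep)}.ncard : ℝ) ≤
        ε * ({P : Projectivization K (Fin r → K) | P.mulHeight ≤ B}.ncard : ℝ) := by
  classical
  have hr : 2 ≤ r := by
    have h1 : Function.Injective (fun i : Fin (N + 1) =>
        e.symm (i, ⟨Finsupp.single 0 d, Finsupp.degree_single _ _⟩)) := by
      intro i j hij
      have := e.symm.injective hij
      exact (Prod.ext_iff.1 this).1
    have := Fintype.card_le_of_injective _ h1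
    rw [Fintype.card_fin, Fintype.card_fin] at this
    omega
  set m : ℕ := Fintype.card (Module.Free.ChooseBasisIndex ℤ (𝓞 K)) with hm
  set ω : Module.Basis (Fin m) ℤ (𝓞 K) :=
    (RingOfIntegers.basis K).reindex (Fintype.equivFin _) with hω
  set e' : Fin (r * m) ≃ Fin r × Fin m := finProdFinEquiv.symm with he'
  have hm0 : 0 < m := by
    have : 0 < Module.finrank ℤ (𝓞 K) := by
      rw [RingOfIntegers.rank]
      exact Module.finrank_pos
    rwa [Module.finrank_eq_card_basis ω, Fintype.card_fin] at this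
  have hω0 : ∃ j, ω j ≠ 0 := ⟨⟨0, hm0⟩, ω.ne_zero _⟩
  refine den K r hr ω e' (fun s => ¬ Exact d K (frm e s)) ?_ ?_ ε hε
  · intro c t hc hbad hgood
    rw [frm_smul] at hgood
    exact hbad (exact_sc _ c hc hgood)
  · set e'' := e'.trans (e.prodCongr (Equiv.refl (Fin m))) with he''
    refine Pool.Agent.LIM.Null.mono (fun z hz => ?_)
      (Pool.Agent.PNB.null_exact (K := K) (fun j => ω j) hω0 hN hd e'')
    intro hgood
    refine hz ?_
    rw [frm_eq]
    exact hgood

end Pool.Agent.HTK
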