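import Mathlib
import Pool.Agent.HTK.Den
import Pool.Agent.HTK.Frm
import Pool.Agent.PNH.UniO
import Pool.Agent.PNH.ParL
import Pool.Agent.PNH.Hun
import Pool.Agent.PNH.AlR
import Pool.Agent.PNB.FxE

set_option autoImplicit false

/-!
# The least degree of a preperiodic point for 100 per cent of all morphisms over a number field
-/

namespace Pool.Agent.HTK

open NumberField Filter
open Pool.Agent.PNH
open Pool.Agent.LIM (Null GF)

/-- The tuple is a morphism without preperiodic points of degree less than `1 + d + … + d ^ N` (less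
than `2` if `N = 1` and `d = 2`), and it has a preperiodic point of degree at most
`1 + d + … + d ^ N`. -/
def Least (d : ℕ) (k : Type) [Field k] {N : ℕ} (F : Tup N k) : Prop :=
  IsMor d k F ∧ (∀ D : ℕ, D < ∑ i ∈ Finset.range (N + 1), d ^ i → (N = 1 → d = 2 → D < 2) →
    Pre k D F = ∅) ∧ (Pre k (∑ i ∈ Finset.range (N + 1), d ^ i) F).Nonempty

theorem exists_bound (N d : ℕ) (hd : 2 ≤ d) : ∃ D₀ : ℕ,
    D₀ < ∑ i ∈ Finset.range (N + 1), d ^ i ∧ (N = 1 → d = 2 → D₀ < 2) ∧
    ∀ D' < ∑ i ∈ Finset.range (N + 1), d ^ i, (N = 1 → d = 2 → D' < 2) → D' ≤ D₀ := by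
  have hpos : 0 < ∑ i ∈ Finset.range (N + 1), d ^ i :=
    Finset.sum_pos (fun l _ => pow_pos (by omega) _) ⟨0, by simp⟩
  by_cases h : N = 1 ∧ d = 2
  · obtain ⟨rfl, rfl⟩ := h
    refine ⟨1, by decide, fun _ _ => by omega, fun D' _ h2 => ?_⟩
    have := h2 rfl rfl
    omega
  · exact ⟨(∑ i ∈ Finset.range (N + 1), d ^ i) - 1, by omega, fun h1 h2 => absurd ⟨h1, h2⟩ h,
      fun D' h1 _ => by omega⟩

theorem least_sc {N d : ℕ} {k : Type} [Field k] (F : Tup N k) (c : k) (hc : c ≠ 0)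
    (h : Least d k (sc c F)) : Least d k F := by
  have h1 : sc c⁻¹ (sc c F) = F := by rw [sc_sc, inv_mul_cancel₀ hc, sc_one]
  have h2 : IsMor d k F := h1 ▸ isMor_sc (sc c F) c⁻¹ (inv_ne_zero hc) h.1
  refine ⟨h2, fun D hD hD' => ?_, ?_⟩
  · have h3 := pre_sc (sc c F) h.1.1 D c⁻¹ (inv_ne_zero hc)
    rw [h1, h.2.1 D hD hD'] at h3
    exact Set.subset_empty_iff.1 h3
  · exact h.2.2.mono (pre_sc F h2.1 _ c hc)

/-- For 100 per cent of all tuples of forms of degree `d` over `K`, ordered by height, the least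
degree of a preperiodic point is `1 + d + … + d ^ N`. -/
theorem forms_least (K : Type) [Field K] [NumberField K] {N d r : ℕ} (hN : 1 ≤ N) (hd : 2 ≤ d)
    (e : Fin r ≃ Fin (N + 1) × {α : Fin (N + 1) →₀ ℕ // α.degree = d}) (ε : ℝ) (hε : 0 < ε) :
    ∃ B₀ : ℝ, ∀ B : ℝ, B₀ ≤ B →
      ({P : Projectivization K (Fin r → K) | P.mulHeight ≤ B ∧
        ¬ Least d K (frm e P.rep)}.ncard : ℝ) ≤
        ε * ({P : Projectivization K (Fin r → K) | P.mulHeight ≤ B}.ncard : ℝ) := by
  classical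
  have hr : 2 ≤ r := by
    have h1 : Function.Injective (fun i : Fin (N + 1) =>
        e.symm (i, ⟨Finsupp.single 0 d, Finsupp.degree_single _ _⟩)) := by
      intro i j hij
      have := e.symm.injective hij
      exact (Prod.ext_iff.1 this).1
    have := Fintype.card_le_of_injective _ h1
    rw [Fintype.card_fin, Fintype.card_fin] at this
    omega
  set m : ℕ := Fintype.card (Module.Free.ChooseBasisIndex ℤ (𝓞 K)) with hm
  set ω : Module.Basis (Fin m) ℤ (𝓞 K) :=
    (RingOfIntegers.basis K).reindex (Fintype.equivFin _) with hω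
  set e' : Fin (r * m) ≃ Fin r × Fin m := finProdFinEquiv.symm with he'
  have hm0 : 0 < m := by
    have : 0 < Module.finrank ℤ (𝓞 K) := by
      rw [RingOfIntegers.rank]
      exact Module.finrank_pos
    rwa [Module.finrank_eq_card_basis ω, Fintype.card_fin] at this
  have hω0 : ∃ j, ω j ≠ 0 := ⟨⟨0, hm0⟩, ω.ne_zero _⟩
  refine den K r hr ω e' (fun s => ¬ Least d K (frm e s)) ?_ ?_ ε hε
  · intro c t hc hbad hgood
    rw [frm_smul] at hgood
    exact hbad (least_sc _ c hc hgood)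
  · set e'' := e'.trans (e.prodCongr (Equiv.refl (Fin m))) with he''
    have hmor := univO_mor (K := K) (fun j => ω j) hω0 e''
    obtain ⟨D₀, hD1, hD2, hD3⟩ := exists_bound N d hd
    obtain ⟨-, h2⟩ := hundred hd D₀ _ hmor
    obtain ⟨hfin, h2'⟩ := hundred hd (∑ i ∈ Finset.range (N + 1), d ^ i) _ hmor
    have h3 := univO_nopreR (K := K) (fun j => ω j) hω0 hN hd hD1 hD2 e''
    have h4 := Pool.Agent.PNB.univO_fix (K := K) (fun j => ω j) hω0 hd e''
    refine Pool.Agent.LIM.Null.mono (fun z hz => ?_) (h2.union h2')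
    by_contra hcon
    rw [Set.mem_union, not_or] at hcon
    obtain ⟨hc1, hc2⟩ := hcon
    have hg1 := not_not.1 hc1
    have hg2 := not_not.1 hc2
    refine hz ?_
    rw [frm_eq]
    obtain ⟨h5, h6, h7⟩ := hg1
    obtain ⟨-, h8, h9⟩ := hg2
    refine ⟨h5, fun D' hD' hD'' => ?_, ?_⟩
    · have hle := hD3 D' hD' hD''
      rw [h3, Set.ncard_empty, Set.ncard_eq_zero h6] at h7
      refine Set.subset_empty_iff.1 (h7 ▸ ?_)
      rintro x ⟨hx1, ⟨θ, hθ, hxθ⟩, hx3⟩
      exact ⟨hx1, ⟨θ, by omega, hxθ⟩, hx3⟩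
    · rw [← Set.ncard_pos h8, h9, Set.ncard_pos hfin]
      exact h4

end Pool.Agent.HTK
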